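import Pool.Agent.N461.TT.CHbPart00
import Pool.Agent.N461.TT.CHbPart01
import Pool.Agent.N461.TT.CHbPart10
import Pool.Agent.N461.TT.CHbPart11
import Pool.Agent.N461.TT.CHbPsd

set_option autoImplicit false
set_option maxRecDepth 100000
set_option maxHeartbeats 4000000
open Finset

namespace Pool.Agent.N461.TT.CHb
open Pool.Agent.H122R2.N6 Pool.Agent.H37R3.Pen Pool.Agent.TH773.ST Pool.Agent.N461.TT Pool.Agent.N461.TT.CH

theorem hc (b012 b013 b023 b123 b014 b024 b124 b034 b134 b234 : ℕ) (hb012 : Bt b012) (hb013 : Bt b013) (hb023 : Bt b023) (hb123 : Bt b123) (hb014 : Bt b014) (hb024 : Bt b024) (hb124 : Bt b124) (hb034 : Bt b034) (hb134 : Bt b134) (hb234 : Bt b234) (ht : tg b012 b013 b023 b123 b014 b024 b124 b034 b134 b234 = 4) :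
    chkS q4 q2 CST 1079998920 0 [] [969982] b012 b013 b023 b123 b014 b024 b124 b034 b134 b234 = true := by
  have h : part b012 b013 = true := by
    rcases hb012 with rfl | rfl <;> rcases hb013 with rfl | rfl
    exacts [part00, part01, part10, part11]
  have h2 := (B2_true (B2_true (B2_true (B2_true (B2_true (B2_true (B2_true (B2_true h hb023) hb123) hb014) hb024) hb124) hb034) hb134) hb234)
  refine or_false_left h2 ?_
  rw [ht]
  rfl

theorem rng : (nall 15 fun c => and (Nat.blt (rho c) 4) (nall 64 fun i => Nat.blt (pc c i) 64)) = true := by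
  decide +kernel

theorem rho_lt {c : ℕ} (h : c < 15) : rho c < 4 := by
  have := nall_true rng c h
  rw [Bool.and_eq_true] at this
  exact Nat.le_of_ble_eq_true this.1

theorem pc_lt {c i : ℕ} (h : c < 15) (hi : i < 64) : pc c i < 64 := by
  have := nall_true rng c h
  rw [Bool.and_eq_true] at this
  exact Nat.le_of_ble_eq_true (nall_true this.2 i hi)

theorem g4_all {r i j : ℕ} (hr : r < 4) (hi : i < 64) (hj : j < 64) : g4 r i j = true := by
  have h : chk4 r = true := by
    interval_cases r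
    exacts [cp0, cp1, cp2, cp3]
  exact nall_true (nall_true h i hi) j hj

theorem hq4 (c i j : ℕ) (hc : c < 15) (hi : i < 64) (hj : j < 64) : (q4 c i j : ℤ) =
    ∑ k ∈ range 60, (w4 (rho c) k : ℤ) * ((l4 (rho c) (pc c i) k : ℤ) - 256) *
      ((l4 (rho c) (pc c j) k : ℤ) - 256) + ((8589934592 : ℕ) + (29999970 : ℤ) * (ob c i j : ℤ)) := by
  have h := Nat.eq_of_beq_eq_true (g4_all (rho_lt hc) (pc_lt hc hi) (pc_lt hc hj))
  have ho : ob c i j = ob (rep (rho c)) (pc c i) (pc c j) :=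
    Nat.eq_of_beq_eq_true (nall_true (nall_true (nall_true cpo c hc) i hi) j hj)
  unfold ll sw sl at h
  rw [nsum_eq, nsum_eq, nsum_eq, nsum_eq, ← ho] at h
  have h2 := congrArg (fun n : ℕ => (n : ℤ)) h
  simp only [Nat.add_eq, Nat.mul_eq] at h2
  push_cast at h2
  rw [expand (range 60) (fun k => w4 (rho c) k) (fun k => l4 (rho c) (pc c i) k)
    (fun k => l4 (rho c) (pc c j) k) 256]
  have h3 : (q4 c i j : ℤ) = (tq (rho c) (pc c i) (pc c j) : ℤ) := rfl
  rw [h3]
  push_cast
  linarith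

theorem hq2 (i j : ℕ) (hi : i < 16) (hj : j < 16) : (q2 i j : ℤ) =
    ∑ k ∈ range 11, (w2 k : ℤ) * ((l2 i k : ℤ) - 256) * ((l2 j k : ℤ) - 256)
      + ((8589934592 : ℕ) : ℤ) := by
  have h := Nat.eq_of_beq_eq_true (nall_true (nall_true cpb i hi) j hj)
  unfold ll2 sw2 sl2 at h
  rw [nsum_eq, nsum_eq, nsum_eq, nsum_eq] at h
  have h2 := congrArg (fun n : ℕ => (n : ℤ)) h
  simp only [Nat.add_eq, Nat.mul_eq] at h2
  push_cast at h2
  rw [expand (range 11) (fun k => w2 k) (fun k => l2 i k) (fun k => l2 j k) 256]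
  push_cast
  linarith

theorem main {V : Type} [Fintype V] {E : V → V → V → ℕ} (hE : Sy E) (hK : NoK4 E) :
    9720 * ∑ x : Fin 6 → V, (T E (x 0) (x 1) (x 2) (x 3) (x 4) (x 5) : ℤ) ≤
      3180 * (Fintype.card V : ℤ) ^ 6 +
        972 * ∑ x : Fin 6 → V, (Pool.Agent.H37R3.CopL.XL E [261091] x : ℤ) := by
  have h := penO (E := E) hE hK (K := 60) (K2 := 11) (C := CST) (P := 1079998920) (D := 3533329800)
    (B := 256) (σ := 29999970) (o4 := 8589934592) (o2 := 8589934592) (ob := ob) hq4 hq2 cs4 cs2 hc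
    (by decide)
  rw [sum_ob hE] at h
  push_cast at h
  linarith

end Pool.Agent.N461.TT.CHb
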