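import Pool.Agent.TH773.ST.Avg

/-! From the two inequalities of a tree to the distance from Turán's construction. -/

set_option autoImplicit false
set_option maxRecDepth 100000
set_option maxHeartbeats 4000000
open Finset
open scoped Classical

namespace Pool.Agent.N461.TT
open Pool.Agent.H122R2.N6 Pool.Agent.H37R3.Pen Pool.Agent.H37R3.Cop Pool.Agent.H37R3.CopL
open Pool.Agent.TH773.ST

theorem stabF {V : Type} [Fintype V] {E : V → V → V → ℕ} {S N : ℤ}
    (h1 : 9720 * S + 81 * (NT E : ℤ) ≤ N * (Fintype.card V : ℤ) ^ 6)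
    (h2 : 9720 * S ≤ (N - 60) * (Fintype.card V : ℤ) ^ 6 +
      972 * ∑ x : Fin 6 → V, (XL E [261091] x : ℤ)) :
    ∃ g : V → Fin 3, (Fintype.card V : ℤ) ^ 3 * (bad E g : ℤ) + 2016 * (9720 * S) ≤
      2016 * (N * (Fintype.card V : ℤ) ^ 6) := by
  obtain ⟨g, hg⟩ := exists_col (E := E)
  refine ⟨g, ?_⟩
  have hb := bad_le (E := E) g
  have hx : ∑ x : Fin 6 → V, XL E [261091] x ≤ 720 * ((Seeds E).card * Fintype.card V) :=
    (sum_XL_copy (E := E) 261091).trans (Nat.mul_le_mul_left _ copy_le_seeds)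
  have hx' : ∑ x : Fin 6 → V, (XL E [261091] x : ℤ) ≤ 720 * (((Seeds E).card : ℤ) * Fintype.card V) := by
    exact_mod_cast hx
  generalize (∑ x : Fin 6 → V, (XL E [261091] x : ℤ)) = X at h2 hx'
  clear hx
  generalize bad E g = b at hg hb ⊢
  generalize (Seeds E).card = q at hg hx'
  generalize NT E = M at hg h1
  generalize Fintype.card V = n at *
  have hb6 : (n : ℤ) ^ 3 * (b : ℤ) ≤ (n : ℤ) ^ 6 := by
    have : n ^ 3 * b ≤ n ^ 6 := by
      calc n ^ 3 * b ≤ n ^ 3 * n ^ 3 := Nat.mul_le_mul_left _ hb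
        _ = n ^ 6 := by ring
    exact_mod_cast this
  have hM : (0 : ℤ) ≤ (M : ℤ) := by positivity
  have hn6 : (0 : ℤ) ≤ (n : ℤ) ^ 6 := by positivity
  by_cases hc : n ^ 6 ≤ 23328 * (q * n)
  · rcases Nat.eq_zero_or_pos n with hn | hn
    · subst hn
      simp only [Nat.cast_zero, ne_eq, OfNat.ofNat_ne_zero, not_false_eq_true, zero_pow, mul_zero,
        zero_mul] at h1 ⊢
      linarith
    · have h3 : n ^ 5 ≤ 23328 * q := by
        have h5 : n ^ 5 * n ≤ (23328 * q) * n := by
          calc n ^ 5 * n = n ^ 6 := by ring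
            _ ≤ 23328 * (q * n) := hc
            _ = (23328 * q) * n := by ring
        exact Nat.le_of_mul_le_mul_right h5 hn
      have h6 : n ^ 3 * b ≤ 163296 * M := by
        have h7 : n ^ 5 * b ≤ 23328 * (7 * (M * n ^ 2)) := by
          calc n ^ 5 * b ≤ (23328 * q) * b := Nat.mul_le_mul_right _ h3
            _ = 23328 * (q * b) := by ring
            _ ≤ 23328 * (7 * (M * n ^ 2)) := Nat.mul_le_mul_left _ hg
        have h8 : n ^ 2 * (n ^ 3 * b) ≤ n ^ 2 * (163296 * M) := by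
          calc n ^ 2 * (n ^ 3 * b) = n ^ 5 * b := by ring
            _ ≤ 23328 * (7 * (M * n ^ 2)) := h7
            _ = n ^ 2 * (163296 * M) := by ring
        exact Nat.le_of_mul_le_mul_left h8 (by positivity)
      have h6' : (n : ℤ) ^ 3 * (b : ℤ) ≤ 163296 * (M : ℤ) := by exact_mod_cast h6
      linarith
  · push Not at hc
    have hc' : 23328 * ((q : ℤ) * n) < (n : ℤ) ^ 6 := by exact_mod_cast hc
    linarith

end Pool.Agent.N461.TT
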