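import Pool.Agent.N461.TT.Defs

/-! Homomorphisms to Turán's construction. -/

set_option autoImplicit false
set_option maxHeartbeats 4000000
open Finset

namespace Pool.Agent.N461.TT

/-- the parts of Turán's construction -/
def g3 (n : ℕ) (v : Fin n) : Fin 3 := Fin.ofNat 3 v

theorem g3_card (n : ℕ) (p : Fin 3) : n / 3 ≤ ((univ : Finset (Fin n)).filter fun v => g3 n v = p).card := by
  rcases Nat.eq_zero_or_pos n with hn | hn
  · subst hn; exact Nat.zero_le _
  have h : (range (n / 3)).card = n / 3 := card_range _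
  rw [← h]
  refine card_le_card_of_injOn
    (fun i => if hi : 3 * i + p < n then (⟨3 * i + p, hi⟩ : Fin n) else ⟨0, hn⟩) ?_ ?_
  · intro i hi
    have hi' := mem_range.mp (mem_coe.mp hi)
    have hp := p.2
    have h1 : 3 * i + p < n := by omega
    dsimp only
    rw [dif_pos h1, mem_coe, mem_filter]
    refine ⟨mem_univ _, ?_⟩
    unfold g3
    apply Fin.ext
    show (3 * i + (p : ℕ)) % 3 = p
    omega
  · intro i hi j hj hij
    have hi' := mem_range.mp (mem_coe.mp hi)
    have hj' := mem_range.mp (mem_coe.mp hj)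
    have hp := p.2
    have h1 : 3 * i + p < n := by omega
    have h2 : 3 * j + p < n := by omega
    dsimp only at hij
    rw [dif_pos h1, dif_pos h2] at hij
    have := congrArg Fin.val hij
    dsimp only at this
    omega

theorem rule_image {m n : ℕ} (g : Fin n → Fin 3) {φ : Fin m → Fin n} (hφ : Function.Injective φ)
    (e : Finset (Fin m)) : Rule g (e.image φ) ↔ Rule (g ∘ φ) e := by
  unfold Rule
  have h : ∀ p, ((e.image φ).filter fun i => g i = p).card =
      (e.filter fun i => (g ∘ φ) i = p).card := by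
    intro p
    rw [filter_image, card_image_of_injective _ hφ]
    rfl
  simp only [h, mem_image, exists_exists_and_eq_and, Function.comp]

theorem homs_low {m n : ℕ} {F : Finset (Finset (Fin m))} (hF : ∀ e ∈ F, e.card = 3)
    (g : Fin n → Fin 3) (w : Fin 3 → ℕ) (s : ℕ)
    (hw : ∀ p, w p * s ≤ ((univ : Finset (Fin n)).filter fun v => g v = p).card) :
    (∑ c ∈ (univ : Finset (Fin m → Fin 3)).filter (fun c => ∀ e ∈ F, Rule c e),
      ∏ i, w (c i)) * s ^ m + (n + 1 - m) ^ m ≤ homs F (turan g) + n ^ m := by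
  set A := (univ : Finset (Fin m → Fin n)).filter fun φ => ∀ e ∈ F, Rule (g ∘ φ) e with hA
  set B := (univ : Finset (Fin m → Fin n)).filter fun φ => Function.Injective φ with hB
  have h1 : (∑ c ∈ (univ : Finset (Fin m → Fin 3)).filter (fun c => ∀ e ∈ F, Rule c e),
      ∏ i, w (c i)) * s ^ m ≤ A.card := by
    have e1 : A.card = ∑ c ∈ (univ : Finset (Fin m → Fin 3)).filter (fun c => ∀ e ∈ F, Rule c e),
        (A.filter fun φ => g ∘ φ = c).card := by
      refine card_eq_sum_card_fiberwise fun φ hφ => ?_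
      exact mem_coe.mpr (mem_filter.mpr ⟨mem_univ _, (mem_filter.mp (mem_coe.mp hφ)).2⟩)
    rw [e1, sum_mul]
    refine sum_le_sum fun c hc => ?_
    have e2 : (A.filter fun φ => g ∘ φ = c) =
        Fintype.piFinset fun i => (univ : Finset (Fin n)).filter fun v => g v = c i := by
      ext φ
      rw [mem_filter, hA, mem_filter, Fintype.mem_piFinset]
      constructor
      · rintro ⟨-, h⟩ i
        exact mem_filter.mpr ⟨mem_univ _, congrFun h i⟩
      · intro h
        have h2 : g ∘ φ = c := funext fun i => (mem_filter.mp (h i)).2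
        exact ⟨⟨mem_univ _, by rw [h2]; exact (mem_filter.mp hc).2⟩, h2⟩
    rw [e2, Fintype.card_piFinset]
    calc (∏ i, w (c i)) * s ^ m = ∏ i : Fin m, w (c i) * s := by
          rw [prod_mul_distrib, prod_const, card_univ, Fintype.card_fin]
      _ ≤ _ := prod_le_prod' fun i _ => hw (c i)
  have h2 : (n + 1 - m) ^ m ≤ B.card := by
    have e1 : B.card = n.descFactorial m := by
      have := Fintype.card_embedding_eq (α := Fin m) (β := Fin n)
      rw [Fintype.card_fin, Fintype.card_fin] at this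
      rw [← this, hB, ← Fintype.card_subtype]
      exact Fintype.card_congr (Equiv.subtypeInjectiveEquivEmbedding (Fin m) (Fin n))
    rw [e1]
    exact Nat.pow_sub_le_descFactorial n m
  have h3 : A ∩ B ⊆ (univ : Finset (Fin m → Fin n)).filter fun φ =>
      ∀ e ∈ F, e.image φ ∈ turan g := by
    intro φ hφ
    obtain ⟨ha, hb⟩ := mem_inter.mp hφ
    have ha' := (mem_filter.mp ha).2
    have hb' := (mem_filter.mp hb).2
    refine mem_filter.mpr ⟨mem_univ _, fun e he => ?_⟩
    unfold turan
    rw [mem_filter, mem_powersetCard, card_image_of_injective _ hb']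
    exact ⟨⟨subset_univ _, hF e he⟩, (rule_image _ hb' e).mpr (ha' e he)⟩
  have h4 : (A ∩ B).card ≤ homs F (turan g) := card_le_card h3
  have h5 : A.card + B.card ≤ (A ∩ B).card + n ^ m := by
    rw [← card_union_add_card_inter, add_comm (A ∪ B).card]
    refine Nat.add_le_add_left ((card_le_univ _).trans ?_) _
    rw [Fintype.card_fun, Fintype.card_fin, Fintype.card_fin]
  omega

/-- parts with the proportions 1 : 1 : 4 -/
def g6 (n : ℕ) (v : Fin n) : Fin 3 := if (v : ℕ) % 6 = 0 then 0 else if (v : ℕ) % 6 = 1 then 1 else 2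

def w6 : Fin 3 → ℕ := ![1, 1, 4]

theorem g6_card (n : ℕ) (p : Fin 3) :
    w6 p * (n / 6) ≤ ((univ : Finset (Fin n)).filter fun v => g6 n v = p).card := by
  rcases Nat.eq_zero_or_pos n with hn | hn
  · subst hn; exact le_of_eq (by simp)
  have hw : w6 p ≤ 4 ∧ ∀ t < w6 p, (if ((p : ℕ) + t) % 6 = 0 then (0 : Fin 3) else
      if ((p : ℕ) + t) % 6 = 1 then 1 else 2) = p ∧ (p : ℕ) + t < 6 := by
    revert p; decide
  have h : ((range (w6 p)) ×ˢ (range (n / 6))).card = w6 p * (n / 6) := by
    rw [card_product, card_range, card_range]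
  rw [← h]
  refine card_le_card_of_injOn
    (fun q => if hi : 6 * q.2 + (p + q.1) < n then (⟨6 * q.2 + (p + q.1), hi⟩ : Fin n)
      else ⟨0, hn⟩) ?_ ?_
  · rintro ⟨t, i⟩ hi
    obtain ⟨ht, hi⟩ := mem_product.mp (mem_coe.mp hi)
    have ht' := mem_range.mp ht
    have hi' := mem_range.mp hi
    obtain ⟨k1, k2⟩ := hw.2 t ht'
    dsimp only at ht' hi' ⊢
    have h1 : 6 * i + ((p : ℕ) + t) < n := by omega
    rw [dif_pos h1, mem_coe, mem_filter]
    refine ⟨mem_univ _, ?_⟩
    unfold g6
    dsimp only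
    have e : (6 * i + ((p : ℕ) + t)) % 6 = ((p : ℕ) + t) % 6 := by omega
    rw [e]
    exact k1
  · rintro ⟨t, i⟩ hi ⟨t', i'⟩ hj hij
    obtain ⟨ht, hi⟩ := mem_product.mp (mem_coe.mp hi)
    obtain ⟨hu, hj⟩ := mem_product.mp (mem_coe.mp hj)
    have ht' := mem_range.mp ht
    have hi' := mem_range.mp hi
    have hu' := mem_range.mp hu
    have hj' := mem_range.mp hj
    obtain ⟨k1, k2⟩ := hw.2 t ht'
    obtain ⟨l1, l2⟩ := hw.2 t' hu'
    dsimp only at ht' hi' hu' hj' hij
    have h1 : 6 * i + ((p : ℕ) + t) < n := by omega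
    have h2 : 6 * i' + ((p : ℕ) + t') < n := by omega
    rw [dif_pos h1, dif_pos h2] at hij
    have := congrArg Fin.val hij
    dsimp only at this
    rw [Prod.mk.injEq]
    omega

theorem turan_three {n : ℕ} (g : Fin n → Fin 3) : ∀ e ∈ turan g, e.card = 3 := by
  intro e he
  unfold turan at he
  exact (mem_powersetCard.mp (mem_filter.mp he).1).2

theorem rule_key : ∀ g : Fin 4 → Fin 3, ∃ e ∈ (univ : Finset (Fin 4)).powersetCard 3,
    ¬ Rule g e := by decide +kernel

theorem turan_free {n : ℕ} (g : Fin n → Fin 3) : K43Free (turan g) := by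
  intro S hS
  obtain ⟨f, hinj, hfS⟩ : ∃ f : Fin 4 → Fin n, Function.Injective f ∧ univ.image f = S := by
    refine ⟨fun k => (S.orderIsoOfFin hS k : Fin n), ?_, ?_⟩
    · intro a b hab
      exact (S.orderIsoOfFin hS).injective (Subtype.ext hab)
    · ext v
      simp only [mem_image, mem_univ, true_and]
      constructor
      · rintro ⟨k, rfl⟩
        exact (S.orderIsoOfFin hS k).2
      · intro hv
        exact ⟨(S.orderIsoOfFin hS).symm ⟨v, hv⟩, by simp⟩
  obtain ⟨e, he, hr⟩ := rule_key (g ∘ f)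
  have he3 := (mem_powersetCard.mp he).2
  refine ⟨e.image f, ?_, ?_, ?_⟩
  · rw [← hfS]
    exact image_subset_image (subset_univ _)
  · rw [card_image_of_injective _ hinj, he3]
  · intro hm
    unfold turan at hm
    exact hr ((rule_image g hinj e).mp (mem_filter.mp hm).2)

end Pool.Agent.N461.TT
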