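import Pool.Agent.N461.TT.Tree
import Pool.Agent.N461.TT.Low
import Pool.Agent.N461.TT.Stab

/-! Sets of triples and indicator functions. -/

set_option autoImplicit false
set_option maxRecDepth 100000
set_option maxHeartbeats 4000000
open Finset

namespace Pool.Agent.N461.TT
open Pool.Agent.H122R2.N6 Pool.Agent.H37R3.Pen Pool.Agent.H37R3.Cop Pool.Agent.H37R3.CopL
open Pool.Agent.TH773.ST

section
variable {n : ℕ} {H : Finset (Finset (Fin n))}

theorem trip_eq (a b c : Fin n) :
    @Insert.insert _ _ (@Finset.instInsert _ fun a b => Classical.propDecidable (a = b)) a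
      (@Insert.insert _ _ (@Finset.instInsert _ fun a b => Classical.propDecidable (a = b)) b
        ({c} : Finset (Fin n))) = ({a, b, c} : Finset (Fin n)) := by
  ext v
  simp only [mem_insert, mem_singleton]

theorem tri_iff {H : Finset (Finset (Fin n))} {a b c : Fin n} :
    tri H a b c = 1 ↔ ({a, b, c} : Finset (Fin n)) ∈ H := by
  rw [← trip_eq]
  unfold tri
  constructor
  · intro h
    by_contra h2
    rw [if_neg h2] at h
    exact absurd h (by decide)
  · intro h
    rw [if_pos h]

theorem tri_ite (H : Finset (Finset (Fin n))) (a b c : Fin n) :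
    tri H a b c = if ({a, b, c} : Finset (Fin n)) ∈ H then 1 else 0 := by
  rcases (tri_sy H).b a b c with h | h
  · rw [h, if_neg]
    intro h'
    rw [← tri_iff, h] at h'
    exact absurd h' (by decide)
  · rw [h, if_pos (tri_iff.mp h)]

theorem rule_univ : ∀ g : Fin 3 → Fin 3, Rule g (univ : Finset (Fin 3)) ↔
    Rf (g 0) (g 1) (g 2) = 1 := by
  decide +kernel

theorem mem_tur {g : Fin n → Fin 3} {a b c : Fin n} (hab : a ≠ b) (hac : a ≠ c) (hbc : b ≠ c) :
    ({a, b, c} : Finset (Fin n)) ∈ turan g ↔ Rf (g a) (g b) (g c) = 1 := by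
  have hf : Function.Injective ![a, b, c] := by
    intro i j h
    fin_cases i <;> fin_cases j <;> simp_all
  have h1 : ({a, b, c} : Finset (Fin n)) = (univ : Finset (Fin 3)).image ![a, b, c] := by
    ext v
    simp only [mem_insert, mem_singleton, mem_image, mem_univ, true_and, Fin.exists_fin_succ]
    simp [eq_comm]
  unfold turan
  rw [h1, mem_filter, mem_powersetCard, card_image_of_injective _ hf, rule_image g hf, rule_univ]
  exact ⟨fun h => h.2, fun h => ⟨⟨subset_univ _, rfl⟩, h⟩⟩

/-- the distance to Turán's construction -/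
theorem six_symm (hH : ∀ e ∈ H, e.card = 3) (g : Fin n → Fin 3) :
    6 * (symmDiff H (turan g)).card ≤ bad (tri H) g := by
  have hD : ∀ e ∈ symmDiff H (turan g), e.card = 3 := by
    intro e he
    rw [mem_symmDiff] at he
    rcases he with he | he
    exacts [hH e he.1, turan_three g e he.1]
  refine (six_card_le hD).trans ?_
  have e1 : ∑ a, ∑ b, ∑ c, tri (symmDiff H (turan g)) a b c =
      ((univ : Finset (Fin n × Fin n × Fin n)).filter fun t =>
        ({t.1, t.2.1, t.2.2} : Finset (Fin n)) ∈ symmDiff H (turan g)).card := by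
    rw [Finset.card_filter, Fintype.sum_prod_type]
    refine sum_congr rfl fun a _ => ?_
    rw [Fintype.sum_prod_type]
    refine sum_congr rfl fun b _ => sum_congr rfl fun c _ => ?_
    rw [tri_ite]
  rw [e1]
  unfold bad
  refine card_le_card_of_injOn (fun p => ![p.1, p.2.1, p.2.2]) ?_ ?_
  · rintro ⟨a, b, c⟩ hp
    have hp' : ({a, b, c} : Finset (Fin n)) ∈ symmDiff H (turan g) :=
      (mem_filter.mp (mem_coe.mp hp)).2
    refine mem_coe.mpr (mem_filter.mpr ⟨mem_univ _, ?_⟩)
    have h3 := hD _ hp'
    have hab : a ≠ b := by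
      rintro rfl
      have : ({a, a, c} : Finset (Fin n)).card ≤ 2 := by
        rw [insert_eq_of_mem (mem_insert_self _ _)]; exact card_le_two
      omega
    have hac : a ≠ c := by
      rintro rfl
      have : ({a, b, a} : Finset (Fin n)).card ≤ 2 := by
        rw [insert_comm, insert_eq_of_mem (mem_singleton_self _)]; exact card_le_two
      omega
    have hbc : b ≠ c := by
      rintro rfl
      have : ({a, b, b} : Finset (Fin n)).card ≤ 2 := by
        rw [insert_eq_of_mem (mem_singleton_self b)]; exact card_le_two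
      omega
    change tri H a b c ≠ Rf (g a) (g b) (g c)
    have hm := mem_tur (g := g) hab hac hbc
    rw [mem_symmDiff, hm] at hp'
    have ht : tri H a b c = 1 ↔ ({a, b, c} : Finset (Fin n)) ∈ H := tri_iff
    intro h
    rcases hp' with ⟨h1, h2⟩ | ⟨h1, h2⟩
    · rw [← ht, h] at h1; exact h2 h1
    · rw [← ht, h] at h2; exact h2 h1
  · rintro ⟨a, b, c⟩ _ ⟨a', b', c'⟩ _ h
    have h0 := congrFun h 0
    have h1 := congrFun h 1
    have h2 := congrFun h 2
    simp only [Matrix.cons_val_zero, Matrix.cons_val_one, Matrix.cons_val] at h0 h1 h2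
    rw [h0, h1, h2]

theorem noK4 (h3 : ∀ e ∈ H, e.card = 3) (hK : K43Free H) : NoK4 (tri H) :=
  tri_noK4 h3 hK

/-! Relabelling. -/

theorem homs_img {m : ℕ} (F : Finset (Finset (Fin m))) {σ : Fin m → Fin m}
    (hσ : Function.Injective σ) : homs (img F σ) H = homs F H := by
  unfold homs
  have hb := Finite.injective_iff_bijective.mp hσ
  refine card_bij (fun φ _ => φ ∘ σ) ?_ ?_ ?_
  · intro φ hφ
    have h := (mem_filter.mp hφ).2
    refine mem_filter.mpr ⟨mem_univ _, fun e he => ?_⟩
    have := h (e.image σ) (mem_image_of_mem _ he)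
    rwa [image_image] at this
  · intro φ _ ψ _ h
    funext i
    obtain ⟨j, rfl⟩ := hb.2 i
    exact congrFun h j
  · intro ψ hψ
    have h := (mem_filter.mp hψ).2
    obtain ⟨τ, hτ⟩ := hb.2.hasRightInverse
    have e1 : (ψ ∘ τ) ∘ σ = ψ := by
      funext i
      show ψ (τ (σ i)) = ψ i
      rw [hσ (hτ (σ i))]
    refine ⟨ψ ∘ τ, mem_filter.mpr ⟨mem_univ _, fun e he => ?_⟩, e1⟩
    obtain ⟨e', he', rfl⟩ := mem_image.mp he
    rw [image_image, e1]
    exact h e' he'

theorem cols_img {m : ℕ} (F : Finset (Finset (Fin m))) {σ : Fin m → Fin m}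
    (hσ : Function.Injective σ) : cols (img F σ) = cols F := by
  unfold cols
  have hb := Finite.injective_iff_bijective.mp hσ
  refine card_bij (fun φ _ => φ ∘ σ) ?_ ?_ ?_
  · intro φ hφ
    have h := (mem_filter.mp hφ).2
    refine mem_filter.mpr ⟨mem_univ _, fun e he => ?_⟩
    exact (rule_image φ hσ e).mp (h (e.image σ) (mem_image_of_mem _ he))
  · intro φ _ ψ _ h
    funext i
    obtain ⟨j, rfl⟩ := hb.2 i
    exact congrFun h j
  · intro ψ hψ
    have h := (mem_filter.mp hψ).2
    obtain ⟨τ, hτ⟩ := hb.2.hasRightInverse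
    have e1 : (ψ ∘ τ) ∘ σ = ψ := by
      funext i
      show ψ (τ (σ i)) = ψ i
      rw [hσ (hτ (σ i))]
    refine ⟨ψ ∘ τ, mem_filter.mpr ⟨mem_univ _, fun e he => ?_⟩, e1⟩
    obtain ⟨e', he', rfl⟩ := mem_image.mp he
    rw [rule_image _ hσ, e1]
    exact h e' he'

theorem tree_three {m : ℕ} {F : Finset (Finset (Fin m))} (h : TightTree F) :
    ∀ e ∈ F, e.card = 3 := by
  induction h with
  | base a b c hab hac hbc =>
    intro e he
    rw [mem_singleton] at he
    rw [he]
    exact card_eq_three.mpr ⟨a, b, c, hab, hac, hbc, rfl⟩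
  | step F a b v _ hab he hv ih =>
    intro f hf
    rcases mem_insert.mp hf with rfl | hf
    · obtain ⟨e, he, ha, hb⟩ := he
      refine card_eq_three.mpr ⟨a, b, v, hab, ?_, ?_, rfl⟩
      · rintro rfl; exact hv e he ha
      · rintro rfl; exact hv e he hb
    · exact ih f hf

theorem cols_P3 : cols cP3 = 48 := by decide +kernel
theorem cols_P4 : cols cP4 = 84 := by decide +kernel
theorem cols_PC : cols cPC = 87 := by decide +kernel
theorem cols_FK : cols cFK = 90 := by decide +kernel
theorem cols_NT : cols cNT = 84 := by decide +kernel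

theorem ite3 (p q r : Prop) [Decidable p] [Decidable q] [Decidable r] :
    (if p then 1 else 0) * ((if q then 1 else 0) * (if r then 1 else 0)) =
      (if p ∧ q ∧ r then 1 else 0 : ℕ) := by
  by_cases hp : p <;> by_cases hq : q <;> by_cases hr : r <;> simp [hp, hq, hr]

theorem ite4 (p q r s : Prop) [Decidable p] [Decidable q] [Decidable r] [Decidable s] :
    (if p then 1 else 0) * ((if q then 1 else 0) * ((if r then 1 else 0) * (if s then 1 else 0))) =
      (if p ∧ q ∧ r ∧ s then 1 else 0 : ℕ) := by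
  by_cases hp : p <;> by_cases hq : q <;> by_cases hr : r <;> by_cases hs : s <;>
    simp [hp, hq, hr, hs]

end
end Pool.Agent.N461.TT
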