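import Mathlib

/-! Definitions for the theorem on tight trees in 3-graphs without a complete four-vertex subgraph. -/

set_option autoImplicit false
open Finset

namespace Pool.Agent.N461.TT

/-- No four vertices span all four triples of `H`. -/
def K43Free {n : ℕ} (H : Finset (Finset (Fin n))) : Prop :=
  ∀ S : Finset (Fin n), S.card = 4 → ∃ e ⊆ S, e.card = 3 ∧ e ∉ H

/-- Tight trees on the vertex set `Fin m`: a single edge is a tight tree, and a tight tree stays a
tight tree when one adds an edge which consists of two vertices of an edge and of a vertex which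
is in no edge. -/
inductive TightTree {m : ℕ} : Finset (Finset (Fin m)) → Prop
  | base (a b c : Fin m) : a ≠ b → a ≠ c → b ≠ c → TightTree {{a, b, c}}
  | step (F : Finset (Finset (Fin m))) (a b v : Fin m) : TightTree F → a ≠ b →
      (∃ e ∈ F, a ∈ e ∧ b ∈ e) → (∀ e ∈ F, v ∉ e) → TightTree (insert {a, b, v} F)

/-- Two different vertices are contained in all edges. -/
def IsStar {m : ℕ} (F : Finset (Finset (Fin m))) : Prop :=
  ∃ a b : Fin m, a ≠ b ∧ ∀ e ∈ F, a ∈ e ∧ b ∈ e

/-- The number of homomorphisms from `F` to `H`: maps of the vertices which map edges of `F` to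
edges of `H`. -/
def homs {m n : ℕ} (F : Finset (Finset (Fin m))) (H : Finset (Finset (Fin n))) : ℕ :=
  ((univ : Finset (Fin m → Fin n)).filter fun φ => ∀ e ∈ F, e.image φ ∈ H).card

/-- The rule of Turán's construction: the set `e` meets all three parts, or it has two elements in
some part and one element in the next part (part 0 follows part 2). -/
def Rule {m : ℕ} (c : Fin m → Fin 3) (e : Finset (Fin m)) : Prop :=
  (∀ p, ∃ i ∈ e, c i = p) ∨
    ∃ p, (e.filter fun i => c i = p).card = 2 ∧ (e.filter fun i => c i = p + 1).card = 1

instance {m : ℕ} (c : Fin m → Fin 3) (e : Finset (Fin m)) : Decidable (Rule c e) := by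
  unfold Rule; infer_instance

/-- The number of colourings of the vertices of `F` with three colours for which all edges follow
the rule. -/
def cols {m : ℕ} (F : Finset (Finset (Fin m))) : ℕ :=
  ((univ : Finset (Fin m → Fin 3)).filter fun c => ∀ e ∈ F, Rule c e).card

/-- Turán's construction with parts given by `g`. -/
def turan {n : ℕ} (g : Fin n → Fin 3) : Finset (Finset (Fin n)) :=
  ((univ : Finset (Fin n)).powersetCard 3).filter fun e => Rule g e

open scoped Classical in
/-- The largest number of homomorphisms from `F` to a 3-graph on `n` vertices without a complete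
four-vertex subgraph. -/
noncomputable def maxHoms {m : ℕ} (F : Finset (Finset (Fin m))) (n : ℕ) : ℕ :=
  ((univ : Finset (Finset (Finset (Fin n)))).filter fun H =>
    (∀ e ∈ H, e.card = 3) ∧ K43Free H).sup fun H => homs F H

end Pool.Agent.N461.TT
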