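import Pool.Agent.N461.TT.Gen

set_option autoImplicit false
set_option maxRecDepth 100000
set_option maxHeartbeats 4000000
open Finset

namespace Pool.Agent.N461.TT.FK
open Pool.Agent.H122R2.N6 Pool.Agent.H37R3.Pen Pool.Agent.N461.TT

/-- the objective, in terms of bits -/
def obb (p0 p1 p2 p3 i0 i1 i2 i3 i4 i5 j0 j1 j2 j3 j4 j5 : ℕ) : ℕ :=
  (Nat.add (Nat.mul p0 (Nat.mul p2 (Nat.mul i0 j0))) (Nat.add (Nat.mul p1 (Nat.mul p2 (Nat.mul i0 j0))) (Nat.add (Nat.mul p0 (Nat.mul p1 (Nat.mul i1 j1))) (Nat.add (Nat.mul p2 (Nat.mul p1 (Nat.mul i1 j1))) (Nat.add (Nat.mul p1 (Nat.mul p0 (Nat.mul i3 j3))) (Nat.add (Nat.mul p2 (Nat.mul p0 (Nat.mul i3 j3))) (Nat.add (Nat.mul p0 (Nat.mul p3 (Nat.mul i0 j0))) (Nat.add (Nat.mul p1 (Nat.mul p3 (Nat.mul i0 j0))) (Nat.add (Nat.mul p0 (Nat.mul p1 (Nat.mul i2 j2))) (Nat.add (Nat.mul p3 (Nat.mul p1 (Nat.mul i2 j2))) (Nat.add (Nat.mul p1 (Nat.mul p0 (Nat.mul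 i4 j4))) (Nat.add (Nat.mul p3 (Nat.mul p0 (Nat.mul i4 j4))) (Nat.add (Nat.mul p0 (Nat.mul p3 (Nat.mul i1 j1))) (Nat.add (Nat.mul p2 (Nat.mul p3 (Nat.mul i1 j1))) (Nat.add (Nat.mul p0 (Nat.mul p2 (Nat.mul i2 j2))) (Nat.add (Nat.mul p3 (Nat.mul p2 (Nat.mul i2 j2))) (Nat.add (Nat.mul p2 (Nat.mul p0 (Nat.mul i5 j5))) (Nat.add (Nat.mul p3 (Nat.mul p0 (Nat.mul i5 j5))) (Nat.add (Nat.mul p1 (Nat.mul p3 (Nat.mul i3 j3))) (Nat.add (Nat.mul p2 (Nat.mul p3 (Nat.mul i3 j3))) (Nat.add (Nat.mul p1 (Nat.mul p2 (Nat.mul i4 j4))) (Nat.add (Nat.mul p3 (Nat.mul p2 (Nat.mul i4 j4))) (Nat.add (Nat.mul p2 (Nat.mul p1 (Nat.mul i5 j5))) (Nat.mul p3 (Nat.mul p1 (Nat.mul i5 j5))))))))))))))))))))))))))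

/-- the objective, in terms of codes -/
def ob (c i j : ℕ) : ℕ := obb (bt c 0) (bt c 1) (bt c 2) (bt c 3) (bt i 0) (bt i 1) (bt i 2) (bt i 3) (bt i 4) (bt i 5) (bt j 0) (bt j 1) (bt j 2) (bt j 3) (bt j 4) (bt j 5)

section
variable {V : Type} (E : V → V → V → ℕ)

/-- the product of the edges of the tree -/
def T (a b c d e f : V) : ℕ := E a b c * (E a c d * (E a b e * (E a b f)))

variable {E}

theorem F4_ob (hE : Sy E) (a b c d e f : V) : F4 E ob a b c d e f =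
    T E a b c d e f +
      (T E a b d c e f +
      (T E a c b d e f +
      (T E a c d b e f +
      (T E a d b c e f +
      (T E a d c b e f +
      (T E b a c d e f +
      (T E b a d c e f +
      (T E b c a d e f +
      (T E b c d a e f +
      (T E b d a c e f +
      (T E b d c a e f +
      (T E c a b d e f +
      (T E c a d b e f +
      (T E c b a d e f +
      (T E c b d a e f +
      (T E c d a b e f +
      (T E c d b a e f +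
      (T E d a b c e f +
      (T E d a c b e f +
      (T E d b a c e f +
      (T E d b c a e f +
      (T E d c a b e f +
      (T E d c b a e f))))))))))))))))))))))) := by
  unfold F4 ob
  obtain ⟨h0, h1, h2, h3⟩ := b40 (hE.b a b c) (hE.b a b d) (hE.b a c d) (hE.b b c d)
  obtain ⟨k0, k1, k2, k3, k4, k5⟩ := b60 (hE.b a b e) (hE.b a c e) (hE.b b c e) (hE.b a d e)
    (hE.b b d e) (hE.b c d e)
  obtain ⟨l0, l1, l2, l3, l4, l5⟩ := b60 (hE.b a b f) (hE.b a c f) (hE.b b c f) (hE.b a d f)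
    (hE.b b d f) (hE.b c d f)
  rw [h0, h1, h2, h3, k0, k1, k2, k3, k4, k5, l0, l1, l2, l3, l4, l5]
  unfold T obb
  simp only [Nat.add_eq, Nat.mul_eq, hE.h132 a b c, hE.h231 a b c, hE.h213 a b c, hE.h312 a b c, s321 hE a b c, hE.h132 a b d, hE.h231 a b d, hE.h213 a b d, hE.h312 a b d, s321 hE a b d, hE.h132 a b e, hE.h231 a b e, hE.h213 a b e, hE.h312 a b e, s321 hE a b e, hE.h132 a b f, hE.h231 a b f, hE.h213 a b f, hE.h312 a b f, s321 hE a b f, hE.h132 a c d, hE.h231 a c d, hE.h213 a c d, hE.h312 a c d, s321 hE a c d, hE.h132 a c e, hE.h231 a c e, hE.h213 a c e, hE.h312 a c e, s321 hE a c e, hE.h132 a c f, hE.h231 a c f, hE.h213 a c f, hE.h312 a c f, s321 hE a c f, hE.h132 a d e, hE.h231 a d e, hE.h213 a d e, hE.h312 a d e, s321 hE a d e, hE.h132 a d f, hE.h231 a d f, hE.h213 a d f, hE.h312 a d f, s321 hE a d f, hE.h132 b c d, hE.h231 b c d, hE.h213 b c d, hE.h312 b c d, s321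 hE b c d, hE.h132 b c e, hE.h231 b c e, hE.h213 b c e, hE.h312 b c e, s321 hE b c e, hE.h132 b c f, hE.h231 b c f, hE.h213 b c f, hE.h312 b c f, s321 hE b c f, hE.h132 b d e, hE.h231 b d e, hE.h213 b d e, hE.h312 b d e, s321 hE b d e, hE.h132 b d f, hE.h231 b d f, hE.h213 b d f, hE.h312 b d f, s321 hE b d f, hE.h132 c d e, hE.h231 c d e, hE.h213 c d e, hE.h312 c d e, s321 hE c d e, hE.h132 c d f, hE.h231 c d f, hE.h213 c d f, hE.h312 c d f, s321 hE c d f]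

variable [Fintype V]

theorem sum_ob (hE : Sy E) :
    ∑ x : Fin 6 → V, (F4 E ob (x 0) (x 1) (x 2) (x 3) (x 4) (x 5) : ℤ)
      = 24 * ∑ x : Fin 6 → V, (T E (x 0) (x 1) (x 2) (x 3) (x 4) (x 5) : ℤ) := by
  have f4 : ∀ i0 i1 i2 i3 i4 i5 : Fin 6, Function.Injective ![i0, i1, i2, i3, i4, i5] →
      ∑ x : Fin 6 → V, (T E (x i0) (x i1) (x i2) (x i3) (x i4) (x i5) : ℤ)
      = ∑ x : Fin 6 → V, (T E (x 0) (x 1) (x 2) (x 3) (x 4) (x 5) : ℤ) :=
    fun i0 i1 i2 i3 i4 i5 hg =>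
      psum (fun a b c d e f => (T E a b c d e f : ℤ)) ![i0, i1, i2, i3, i4, i5]
        (Finite.injective_iff_bijective.mp hg)
  simp only [F4_ob hE, Nat.cast_add, sum_add_distrib]
  rw [f4 0 1 3 2 4 5 (by decide), f4 0 2 1 3 4 5 (by decide), f4 0 2 3 1 4 5 (by decide), f4 0 3 1 2 4 5 (by decide), f4 0 3 2 1 4 5 (by decide), f4 1 0 2 3 4 5 (by decide), f4 1 0 3 2 4 5 (by decide), f4 1 2 0 3 4 5 (by decide), f4 1 2 3 0 4 5 (by decide), f4 1 3 0 2 4 5 (by decide), f4 1 3 2 0 4 5 (by decide), f4 2 0 1 3 4 5 (by decide), f4 2 0 3 1 4 5 (by decide), f4 2 1 0 3 4 5 (by decide), f4 2 1 3 0 4 5 (by decide), f4 2 3 0 1 4 5 (by decide), f4 2 3 1 0 4 5 (by decide), f4 3 0 1 2 4 5 (by decide), f4 3 0 2 1 4 5 (by decide), f4 3 1 0 2 4 5 (by decide), f4 3 1 2 0 4 5 (by decide), f4 3 2 0 1 4 5 (by decide), f4 3 2 1 0 4 5 (by decide)]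
  ring

end
end Pool.Agent.N461.TT.FK
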