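import Pool.Agent.N461.TT.FKTab
import Pool.Agent.TH773.ST.ComT

set_option autoImplicit false
set_option maxRecDepth 100000

namespace Pool.Agent.N461.TT.FK

open Pool.Agent.H122R2.N6 Pool.Agent.TH773.ST

noncomputable def part (b012 b013 : ℕ) : Bool := B2 fun b023 => B2 fun b123 => B2 fun b014 => B2 fun b024 => B2 fun b124 => B2 fun b034 => B2 fun b134 => B2 fun b234 => or (not (Nat.beq (tg b012 b013 b023 b123 b014 b024 b124 b034 b134 b234) 4)) (chkS q4 q2 CST 0 5999999994 LT [] b012 b013 b023 b123 b014 b024 b124 b034 b134 b234)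

end Pool.Agent.N461.TT.FK
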