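import Pool.Agent.TH773.ST.ComT

/-! Six-vertex certificates whose objective is a sum over pairs of flags on four roots. -/

set_option autoImplicit false
set_option maxRecDepth 100000
set_option maxHeartbeats 4000000
open Finset
open scoped Classical

namespace Pool.Agent.N461.TT
open Pool.Agent.H122R2.N6 Pool.Agent.H37R3.Pen Pool.Agent.H37R3.Cop Pool.Agent.H37R3.CopL
open Pool.Agent.TH773.ST

theorem cd4_lt15 {x y z w : ℕ} (hx : Bt x) (hy : Bt y) (hz : Bt z) (hw : Bt w)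
    (h : k4b x y z w = false) : cd4 x y z w < 15 := by
  rcases hx with rfl | rfl <;> rcases hy with rfl | rfl <;> rcases hz with rfl | rfl <;>
    rcases hw with rfl | rfl <;> first | decide | exact absurd h (by decide)

theorem expand (s : Finset ℕ) (w u v : ℕ → ℕ) (B : ℤ) :
    ∑ k ∈ s, (w k : ℤ) * ((u k : ℤ) - B) * ((v k : ℤ) - B) =
      ∑ k ∈ s, (w k : ℤ) * ((u k : ℤ) * (v k : ℤ)) + B ^ 2 * ∑ k ∈ s, (w k : ℤ)
        - B * (∑ k ∈ s, (w k : ℤ) * (u k : ℤ) + ∑ k ∈ s, (w k : ℤ) * (v k : ℤ)) := by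
  rw [mul_add, mul_sum, mul_sum, mul_sum, ← sum_add_distrib, ← sum_add_distrib, ← sum_sub_distrib]
  exact sum_congr rfl fun k _ => by ring

theorem isoP : isoM [969982] [(969982, 261091, 144488)] [261091] = true := by decide +kernel

section
variable {V : Type} [Fintype V] (E : V → V → V → ℕ)

theorem lower4o (hE : Sy E) (hK : NoK4 E) (K : ℕ) (q4 : ℕ → ℕ → ℕ → ℕ) (W : ℕ → ℕ → ℕ)
    (l : ℕ → ℕ → ℕ → ℕ) (B O4 σ : ℤ) (ob : ℕ → ℕ → ℕ → ℕ)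
    (hq4 : ∀ c i j, c < 15 → i < 64 → j < 64 → (q4 c i j : ℤ) =
      ∑ k ∈ range K, (W c k : ℤ) * ((l c i k : ℤ) - B) * ((l c j k : ℤ) - B)
        + (O4 + σ * (ob c i j : ℤ))) :
    O4 * (Fintype.card V : ℤ) ^ 6
      + σ * ∑ x : Fin 6 → V, (F4 E ob (x 0) (x 1) (x 2) (x 3) (x 4) (x 5) : ℤ)
      ≤ ∑ x : Fin 6 → V, (F4 E q4 (x 0) (x 1) (x 2) (x 3) (x 4) (x 5) : ℤ) := by
  rw [conv6 (fun a b c d e f => (F4 E q4 a b c d e f : ℤ)),
    conv6 (fun a b c d e f => (F4 E ob a b c d e f : ℤ))]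
  have e1 : O4 * (Fintype.card V : ℤ) ^ 6
      + σ * ∑ a, ∑ b, ∑ c, ∑ d, ∑ e, ∑ f, (F4 E ob a b c d e f : ℤ)
      = ∑ a, ∑ b, ∑ c, ∑ d, ∑ e : V, ∑ f : V, (O4 + σ * (F4 E ob a b c d e f : ℤ)) := by
    simp only [sum_const, card_univ, nsmul_eq_mul, sum_add_distrib, mul_sum]
    ring
  rw [e1]
  refine sum_le_sum fun a _ => sum_le_sum fun b _ => sum_le_sum fun c _ => sum_le_sum fun d _ => ?_
  have e2 : ∀ e f : V, (F4 E q4 a b c d e f : ℤ) = _ := fun e f =>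
    hq4 _ _ _ (cd4_lt15 (hE.b a b c) (hE.b a b d) (hE.b a c d) (hE.b b c d) (hK a b c d))
      (cd6_lt (hE.b a b e) (hE.b a c e) (hE.b b c e) (hE.b a d e) (hE.b b d e) (hE.b c d e))
      (cd6_lt (hE.b a b f) (hE.b a c f) (hE.b b c f) (hE.b a d f) (hE.b b d f) (hE.b c d f))
  have e3 : ∀ e f : V, (F4 E ob a b c d e f : ℤ) = _ := fun e f => rfl
  simp only [e2, sum_add_distrib]
  have p := psd K (fun k => W (cd4 (E a b c) (E a b d) (E a c d) (E b c d)) k)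
    (fun k e => (l (cd4 (E a b c) (E a b d) (E a c d) (E b c d))
      (cd6 (E a b e) (E a c e) (E b c e) (E a d e) (E b d e) (E c d e)) k : ℤ) - B)
  have e4 : ∀ e f : V, (F4 E ob a b c d e f : ℤ) = (ob (cd4 (E a b c) (E a b d) (E a c d) (E b c d))
      (cd6 (E a b e) (E a c e) (E b c e) (E a d e) (E b d e) (E c d e))
      (cd6 (E a b f) (E a c f) (E b c f) (E a d f) (E b d f) (E c d f)) : ℤ) := fun e f => rfl
  simp only [e4]
  linarith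

theorem boundO (hE : Sy E) (hK : NoK4 E) (K K2 : ℕ) (X : V → V → V → V → V → V → ℕ)
    (q4 : ℕ → ℕ → ℕ → ℕ) (W : ℕ → ℕ → ℕ) (l : ℕ → ℕ → ℕ → ℕ)
    (q2 : ℕ → ℕ → ℕ) (W2 : ℕ → ℕ) (l2 : ℕ → ℕ → ℕ) (B O4 O2 σ : ℤ) (ob : ℕ → ℕ → ℕ → ℕ)
    (hq4 : ∀ c i j, c < 15 → i < 64 → j < 64 → (q4 c i j : ℤ) =
      ∑ k ∈ range K, (W c k : ℤ) * ((l c i k : ℤ) - B) * ((l c j k : ℤ) - B)
        + (O4 + σ * (ob c i j : ℤ)))
    (hq2 : ∀ i j, i < 16 → j < 16 → (q2 i j : ℤ) =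
      ∑ k ∈ range K2, (W2 k : ℤ) * ((l2 i k : ℤ) - B) * ((l2 j k : ℤ) - B) + O2)
    (hleaf : ∀ a b c d e f : V, L4 E q4 a b c d e f + L2 E q2 a b c d e f ≤ 0 + 1 * X a b c d e f) :
    15 * (σ * ∑ x : Fin 6 → V, (F4 E ob (x 0) (x 1) (x 2) (x 3) (x 4) (x 5) : ℤ))
      + (15 * O4 + 45 * O2) * (Fintype.card V : ℤ) ^ 6
      ≤ ∑ x : Fin 6 → V, (X (x 0) (x 1) (x 2) (x 3) (x 4) (x 5) : ℤ) := by
  have A4 := lower4o E hE hK K q4 W l B O4 σ ob hq4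
  have A2 := lower2 E hE K2 q2 W2 l2 B O2 hq2
  have key : ∑ x : Fin 6 → V, ((L4 E q4 (x 0) (x 1) (x 2) (x 3) (x 4) (x 5) : ℤ)
      + (L2 E q2 (x 0) (x 1) (x 2) (x 3) (x 4) (x 5) : ℤ)) ≤
        ∑ x : Fin 6 → V, (X (x 0) (x 1) (x 2) (x 3) (x 4) (x 5) : ℤ) := by
    refine sum_le_sum fun x _ => ?_
    have h := hleaf (x 0) (x 1) (x 2) (x 3) (x 4) (x 5)
    rw [Nat.zero_add, Nat.one_mul] at h
    exact_mod_cast h
  rw [sum_add_distrib, sumL4 E q4, sumL2 E q2] at key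
  linarith

/-- the sum inequality with slack -/
theorem slackO (hE : Sy E) (hK : NoK4 E) {K K2 C s D : ℕ} {B σ : ℤ} {o4 o2 : ℕ}
    {ob : ℕ → ℕ → ℕ → ℕ} {q4 : ℕ → ℕ → ℕ → ℕ} {q2 : ℕ → ℕ → ℕ}
    {W : ℕ → ℕ → ℕ} {l : ℕ → ℕ → ℕ → ℕ} {W2 : ℕ → ℕ} {l2 : ℕ → ℕ → ℕ} (hs : s ≤ C)
    (hq4 : ∀ c i j, c < 15 → i < 64 → j < 64 → (q4 c i j : ℤ) =
      ∑ k ∈ range K, (W c k : ℤ) * ((l c i k : ℤ) - B) * ((l c j k : ℤ) - B)
        + ((o4 : ℤ) + σ * (ob c i j : ℤ)))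
    (hq2 : ∀ i j, i < 16 → j < 16 → (q2 i j : ℤ) =
      ∑ k ∈ range K2, (W2 k : ℤ) * ((l2 i k : ℤ) - B) * ((l2 j k : ℤ) - B) + (o2 : ℤ))
    (cs4 : sym4 q4 = true) (cs2 : sym2 q2 = true)
    (hc : ∀ b012 b013 b023 b123 b014 b024 b124 b034 b134 b234 : ℕ, Bt b012 → Bt b013 → Bt b023 →
      Bt b123 → Bt b014 → Bt b024 → Bt b124 → Bt b034 → Bt b134 → Bt b234 →
      tg b012 b013 b023 b123 b014 b024 b124 b034 b134 b234 = 4 →
      chkS q4 q2 C 0 s LT [] b012 b013 b023 b123 b014 b024 b124 b034 b134 b234 = true)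
    (hC : C = D + 15 * o4 + 45 * o2) :
    15 * (σ * ∑ x : Fin 6 → V, (F4 E ob (x 0) (x 1) (x 2) (x 3) (x 4) (x 5) : ℤ))
      + (s : ℤ) * (NT E : ℤ) ≤ (D : ℤ) * (Fintype.card V : ℤ) ^ 6 := by
  have hb := boundO E hE hK K K2
    (fun a b c d e f => C + 0 * XL6 E [] a b c d e f + s * XL6 E MT a b c d e f - s)
    q4 W l q2 W2 l2 B o4 o2 σ ob hq4 hq2
    (leafS_all (TN := []) hE hK hs isoT rfl cs4 cs2 hc)
  simp only [XL_eq] at hb
  have h1 : ∀ x : Fin 6 → V, ((C + 0 * XL E [] x + s * XL E MT x - s : ℕ) : ℤ) =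
      ((C : ℤ) - s) + (s : ℤ) * (XL E MT x : ℤ) := by
    intro x
    have h2 : s ≤ C + 0 * XL E [] x + s * XL E MT x := by
      rw [Nat.add_assoc]; exact hs.trans (Nat.le_add_right _ _)
    rw [Nat.cast_sub h2]
    push_cast
    ring
  simp only [h1] at hb
  rw [sum_add_distrib, ← mul_sum, sum_const, card_univ,
    Fintype.card_fun, Fintype.card_fin, nsmul_eq_mul] at hb
  have h3 : (∑ x : Fin 6 → V, (XL E MT x : ℤ)) + (NT E : ℤ) ≤ (Fintype.card V : ℤ) ^ 6 := by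
    have h4 : ∑ x : Fin 6 → V, XL E MT x =
        ((univ : Finset (Fin 6 → V)).filter fun x => RelL E MT x).card := by
      rw [card_filter]; rfl
    have h5 : ((univ : Finset (Fin 6 → V)).filter fun x => RelL E MT x).card + NT E ≤
        Fintype.card V ^ 6 := by
      unfold NT
      have h6 := Finset.card_filter_add_card_filter_not (s := (univ : Finset (Fin 6 → V)))
        (fun x => RelL E MT x)
      rw [card_univ, Fintype.card_fun, Fintype.card_fin] at h6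
      rw [← h6]
      refine Nat.add_le_add_left (card_le_card ?_) _
      intro x hx
      rw [mem_filter] at hx ⊢
      exact ⟨mem_univ _, fun h => hx.2 (TT_of_rel hE h)⟩
    rw [← h4] at h5
    exact_mod_cast h5
  have h6 : (0 : ℤ) ≤ (s : ℤ) := by positivity
  have h7 := mul_le_mul_of_nonneg_left h3 h6
  have hC' : (C : ℤ) = (D : ℤ) + 15 * o4 + 45 * o2 := by exact_mod_cast hC
  rw [hC'] at hb
  push_cast at hb
  linarith

/-- the sum inequality with a penalty for the structures of the pattern `(2,2,2)` -/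
theorem penO (hE : Sy E) (hK : NoK4 E) {K K2 C P D : ℕ} {B σ : ℤ} {o4 o2 : ℕ}
    {ob : ℕ → ℕ → ℕ → ℕ} {q4 : ℕ → ℕ → ℕ → ℕ} {q2 : ℕ → ℕ → ℕ}
    {W : ℕ → ℕ → ℕ} {l : ℕ → ℕ → ℕ → ℕ} {W2 : ℕ → ℕ} {l2 : ℕ → ℕ → ℕ}
    (hq4 : ∀ c i j, c < 15 → i < 64 → j < 64 → (q4 c i j : ℤ) =
      ∑ k ∈ range K, (W c k : ℤ) * ((l c i k : ℤ) - B) * ((l c j k : ℤ) - B)
        + ((o4 : ℤ) + σ * (ob c i j : ℤ)))
    (hq2 : ∀ i j, i < 16 → j < 16 → (q2 i j : ℤ) =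
      ∑ k ∈ range K2, (W2 k : ℤ) * ((l2 i k : ℤ) - B) * ((l2 j k : ℤ) - B) + (o2 : ℤ))
    (cs4 : sym4 q4 = true) (cs2 : sym2 q2 = true)
    (hc : ∀ b012 b013 b023 b123 b014 b024 b124 b034 b134 b234 : ℕ, Bt b012 → Bt b013 → Bt b023 →
      Bt b123 → Bt b014 → Bt b024 → Bt b124 → Bt b034 → Bt b134 → Bt b234 →
      tg b012 b013 b023 b123 b014 b024 b124 b034 b134 b234 = 4 →
      chkS q4 q2 C P 0 [] [969982] b012 b013 b023 b123 b014 b024 b124 b034 b134 b234 = true)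
    (hC : C = D + 15 * o4 + 45 * o2) :
    15 * (σ * ∑ x : Fin 6 → V, (F4 E ob (x 0) (x 1) (x 2) (x 3) (x 4) (x 5) : ℤ))
      ≤ (D : ℤ) * (Fintype.card V : ℤ) ^ 6 + P * ∑ x : Fin 6 → V, (XL E [261091] x : ℤ) := by
  have hb := boundO E hE hK K K2
    (fun a b c d e f => C + P * XL6 E [261091] a b c d e f + 0 * XL6 E [] a b c d e f - 0)
    q4 W l q2 W2 l2 B o4 o2 σ ob hq4 hq2
    (leafS_all (TT := []) (MT := []) hE hK (Nat.zero_le _) rfl isoP cs4 cs2 hc)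
  simp only [XL_eq] at hb
  have h1 : ∀ x : Fin 6 → V, ((C + P * XL E [261091] x + 0 * XL E [] x - 0 : ℕ) : ℤ) =
      (C : ℤ) + (P : ℤ) * (XL E [261091] x : ℤ) := by
    intro x
    rw [Nat.sub_zero]
    push_cast
    ring
  simp only [h1] at hb
  rw [sum_add_distrib, ← mul_sum, sum_const, card_univ,
    Fintype.card_fun, Fintype.card_fin, nsmul_eq_mul] at hb
  have hC' : (C : ℤ) = (D : ℤ) + 15 * o4 + 45 * o2 := by exact_mod_cast hC
  rw [hC'] at hb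
  push_cast at hb
  linarith

end

theorem s321 {V : Type} {E : V → V → V → ℕ} (hE : Sy E) (x y z : V) : E z y x = E x y z := by
  rw [hE.h213 y z x, hE.h231 x y z]

/-! Bits of codes. -/

theorem b40 {x y z w : ℕ} (hx : Bt x) (hy : Bt y) (hz : Bt z) (hw : Bt w) :
    bt (cd4 x y z w) 0 = x ∧ bt (cd4 x y z w) 1 = y ∧ bt (cd4 x y z w) 2 = z ∧
      bt (cd4 x y z w) 3 = w := by
  rcases hx with rfl | rfl <;> rcases hy with rfl | rfl <;> rcases hz with rfl | rfl <;>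
    rcases hw with rfl | rfl <;> decide

theorem b60 {x y z u v w : ℕ} (hx : Bt x) (hy : Bt y) (hz : Bt z) (hu : Bt u) (hv : Bt v)
    (hw : Bt w) :
    bt (cd6 x y z u v w) 0 = x ∧ bt (cd6 x y z u v w) 1 = y ∧ bt (cd6 x y z u v w) 2 = z ∧
      bt (cd6 x y z u v w) 3 = u ∧ bt (cd6 x y z u v w) 4 = v ∧ bt (cd6 x y z u v w) 5 = w := by
  rcases hx with rfl | rfl <;> rcases hy with rfl | rfl <;> rcases hz with rfl | rfl <;>
    rcases hu with rfl | rfl <;> rcases hv with rfl | rfl <;> rcases hw with rfl | rfl <;> decide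

end Pool.Agent.N461.TT
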