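import Pool.Agent.N461.TT.Low

/-! The limits. -/

set_option autoImplicit false
set_option maxHeartbeats 4000000
open Finset Filter Topology

namespace Pool.Agent.N461.TT

theorem maxHoms_le {m n : ℕ} {F : Finset (Finset (Fin m))} {B : ℝ} (hB : 0 ≤ B)
    (h : ∀ H : Finset (Finset (Fin n)), (∀ e ∈ H, e.card = 3) → K43Free H → (homs F H : ℝ) ≤ B) :
    (maxHoms F n : ℝ) ≤ B := by
  classical
  have h1 : maxHoms F n ≤ ⌊B⌋₊ := by
    unfold maxHoms
    refine Finset.sup_le fun H hH => ?_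
    obtain ⟨h3, hK⟩ := (mem_filter.mp hH).2
    exact Nat.le_floor (h H h3 hK)
  calc (maxHoms F n : ℝ) ≤ (⌊B⌋₊ : ℝ) := by exact_mod_cast h1
    _ ≤ B := Nat.floor_le hB

theorem le_maxHoms {m n : ℕ} {F : Finset (Finset (Fin m))} {H : Finset (Finset (Fin n))}
    (h3 : ∀ e ∈ H, e.card = 3) (hK : K43Free H) : homs F H ≤ maxHoms F n := by
  classical
  unfold maxHoms
  exact Finset.le_sup (f := fun H => homs F H) (mem_filter.mpr ⟨mem_univ _, h3, hK⟩)

theorem lim_low (W q r m : ℕ) (hq : 0 < q) :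
    Tendsto (fun n : ℕ => (W : ℝ) * (((n : ℝ) - r) / (q * n)) ^ m +
      (((n : ℝ) + 1 - m) / n) ^ m - 1) atTop (𝓝 ((W : ℝ) * (1 / q) ^ m)) := by
  have h1 : Tendsto (fun n : ℕ => ((n : ℝ) - r) / (q * n)) atTop (𝓝 (1 / q)) := by
    have h2 : Tendsto (fun n : ℕ => (1 / (q : ℝ)) * (1 - (r : ℝ) / n)) atTop
        (𝓝 ((1 / (q : ℝ)) * (1 - 0))) :=
      (tendsto_const_nhds.sub (tendsto_const_div_atTop_nhds_zero_nat _)).const_mul _
    rw [sub_zero, mul_one] at h2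
    refine h2.congr' ?_
    filter_upwards [eventually_gt_atTop 0] with n hn
    have hn' : (n : ℝ) ≠ 0 := by positivity
    have hq' : (q : ℝ) ≠ 0 := by positivity
    field_simp
  have h3 : Tendsto (fun n : ℕ => ((n : ℝ) + 1 - m) / n) atTop (𝓝 1) := by
    have h4 : Tendsto (fun n : ℕ => 1 + (1 - (m : ℝ)) / n) atTop (𝓝 (1 + 0)) :=
      tendsto_const_nhds.add (tendsto_const_div_atTop_nhds_zero_nat _)
    rw [add_zero] at h4
    refine h4.congr' ?_
    filter_upwards [eventually_gt_atTop 0] with n hn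
    have hn' : (n : ℝ) ≠ 0 := by positivity
    field_simp
    ring
  have h5 := (((h1.pow m).const_mul (W : ℝ)).add (h3.pow m)).sub_const 1
  simpa using h5

theorem low_eval {m n q W h : ℕ} (hq : 0 < q) (hn : m + q ≤ n)
    (hh : W * (n / q) ^ m + (n + 1 - m) ^ m ≤ h + n ^ m) :
    (W : ℝ) * (((n : ℝ) - q) / (q * n)) ^ m + (((n : ℝ) + 1 - m) / n) ^ m - 1 ≤
      (h : ℝ) / (n : ℝ) ^ m := by
  have hn0 : 0 < n := by omega
  have hn' : (0 : ℝ) < n := by exact_mod_cast hn0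
  have hq' : (0 : ℝ) < q := by exact_mod_cast hq
  have h1 : ((W * (n / q) ^ m + (n + 1 - m) ^ m : ℕ) : ℝ) ≤ ((h + n ^ m : ℕ) : ℝ) := by
    exact_mod_cast hh
  push_cast at h1
  rw [Nat.cast_sub (by omega : m ≤ n + 1)] at h1
  push_cast at h1
  have h2 : ((n : ℝ) - q) / q ≤ ((n / q : ℕ) : ℝ) := by
    rw [div_le_iff₀ hq']
    have h3 : n ≤ n / q * q + q := by
      have h4 := Nat.div_add_mod n q
      have h5 := Nat.mod_lt n hq
      rw [mul_comm q] at h4
      omega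
    have h4 : (n : ℝ) ≤ ((n / q : ℕ) : ℝ) * q + q := by exact_mod_cast h3
    linarith
  have hpos : 0 ≤ ((n : ℝ) - q) / q := by
    have : (q : ℝ) ≤ n := by exact_mod_cast (by omega : q ≤ n)
    exact div_nonneg (by linarith) hq'.le
  rw [le_div_iff₀ (by positivity)]
  have e1 : (((n : ℝ) - q) / (q * n)) ^ m * (n : ℝ) ^ m = (((n : ℝ) - q) / q) ^ m := by
    rw [← mul_pow]
    congr 1
    field_simp
  have e2 : (((n : ℝ) + 1 - m) / n) ^ m * (n : ℝ) ^ m = ((n : ℝ) + 1 - m) ^ m := by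
    rw [← mul_pow]
    congr 1
    field_simp
  calc ((W : ℝ) * (((n : ℝ) - q) / (q * n)) ^ m + (((n : ℝ) + 1 - m) / n) ^ m - 1) * (n : ℝ) ^ m
      = (W : ℝ) * ((((n : ℝ) - q) / (q * n)) ^ m * (n : ℝ) ^ m) +
        (((n : ℝ) + 1 - m) / n) ^ m * (n : ℝ) ^ m - (n : ℝ) ^ m := by ring
    _ = (W : ℝ) * (((n : ℝ) - q) / q) ^ m + ((n : ℝ) + 1 - m) ^ m - (n : ℝ) ^ m := by rw [e1, e2]
    _ ≤ (W : ℝ) * ((n / q : ℕ) : ℝ) ^ m + ((n : ℝ) + 1 - m) ^ m - (n : ℝ) ^ m := by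
        have := pow_le_pow_left₀ hpos h2 m
        have hW : (0 : ℝ) ≤ W := by positivity
        nlinarith [mul_le_mul_of_nonneg_left this hW]
    _ ≤ h := by linarith

theorem lim_max {m : ℕ} {F : Finset (Finset (Fin m))} (hF : ∀ e ∈ F, e.card = 3)
    (h : ∀ (n : ℕ) (H : Finset (Finset (Fin n))), (∀ e ∈ H, e.card = 3) → K43Free H →
      (homs F H : ℝ) ≤ (cols F : ℝ) / 3 ^ m * (n : ℝ) ^ m) :
    Tendsto (fun n : ℕ => (maxHoms F n : ℝ) / (n : ℝ) ^ m) atTop (𝓝 ((cols F : ℝ) / 3 ^ m)) := by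
  have h1 := lim_low (cols F) 3 3 m (by norm_num)
  have e : (cols F : ℝ) * (1 / ((3 : ℕ) : ℝ)) ^ m = (cols F : ℝ) / 3 ^ m := by
    push_cast
    rw [one_div, inv_pow, div_eq_mul_inv]
  rw [e] at h1
  refine tendsto_of_tendsto_of_tendsto_of_le_of_le' h1 tendsto_const_nhds ?_ ?_
  · filter_upwards [eventually_ge_atTop (m + 3)] with n hn
    refine (low_eval (h := homs F (turan (g3 n))) (by norm_num) hn ?_).trans ?_
    · have h2 := homs_low hF (g3 n) (fun _ => 1) (n / 3) (fun p => by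
        rw [one_mul]; exact g3_card n p)
      simp only [prod_const_one, sum_const, smul_eq_mul, mul_one] at h2
      exact h2
    · have h3 := le_maxHoms (F := F) (turan_three (g3 n)) (turan_free (g3 n))
      have h4 : (homs F (turan (g3 n)) : ℝ) ≤ (maxHoms F n : ℝ) := by exact_mod_cast h3
      exact div_le_div_of_nonneg_right h4 (by positivity)
  · filter_upwards [eventually_gt_atTop 0] with n hn
    rw [div_le_iff₀ (by positivity)]
    exact maxHoms_le (by positivity) (h n)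

end Pool.Agent.N461.TT
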