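import Pool.Agent.N461.TT.Conn
import Pool.Agent.N461.TT.P3Fin
import Pool.Agent.N461.TT.P3bFin
import Pool.Agent.N461.TT.P4Fin
import Pool.Agent.N461.TT.P4bFin
import Pool.Agent.N461.TT.PCFin
import Pool.Agent.N461.TT.PCbFin
import Pool.Agent.N461.TT.FKFin
import Pool.Agent.N461.TT.FKbFin
import Pool.Agent.N461.TT.NTFin
import Pool.Agent.N461.TT.NTbFin

/-! The theorem on tight trees with three and four edges. -/

set_option autoImplicit false
set_option maxRecDepth 100000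
set_option maxHeartbeats 4000000
open Finset

namespace Pool.Agent.N461.TT
open Pool.Agent.H122R2.N6 Pool.Agent.H37R3.Pen Pool.Agent.H37R3.Cop Pool.Agent.H37R3.CopL
open Pool.Agent.TH773.ST

variable {n : ℕ} {H : Finset (Finset (Fin n))}

theorem fin6 {N : ℤ} {S : ℤ} {c h : ℕ} (h3 : ∀ e ∈ H, e.card = 3)
    (h1 : 9720 * S + 81 * (NT (tri H) : ℤ) ≤ N * (Fintype.card (Fin n) : ℤ) ^ 6)
    (h2 : 9720 * S ≤ (N - 60) * (Fintype.card (Fin n) : ℤ) ^ 6 +
      972 * ∑ x : Fin 6 → Fin n, (XL (tri H) [261091] x : ℤ)) (hS : S = h) (hN : 3 * N = 40 * c) :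
    ∃ g : Fin n → Fin 3, n ^ 3 * (symmDiff H (turan g)).card + 3265920 * h ≤ 4480 * c * n ^ 6 := by
  obtain ⟨g, hg⟩ := stabF h1 h2
  refine ⟨g, ?_⟩
  have h4 := six_symm h3 g
  have h5 := Nat.mul_le_mul_left (n ^ 3) h4
  have h5' : (n : ℤ) ^ 3 * (6 * ((symmDiff H (turan g)).card : ℤ)) ≤
      (n : ℤ) ^ 3 * (bad (tri H) g : ℤ) := by exact_mod_cast h5
  rw [Fintype.card_fin, hS] at hg
  have h6 : (n : ℤ) ^ 3 * ((symmDiff H (turan g)).card : ℤ) + 3265920 * (h : ℤ) ≤
      336 * (N * (n : ℤ) ^ 6) := by linarith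
  have h7 : 336 * (N * (n : ℤ) ^ 6) = 4480 * (c : ℤ) * (n : ℤ) ^ 6 := by
    have : 336 * (N * (n : ℤ) ^ 6) = 112 * (3 * N) * (n : ℤ) ^ 6 := by ring
    rw [this, hN]
    ring
  rw [h7] at h6
  exact_mod_cast h6

theorem S_P4 : ∑ x : Fin 6 → Fin n, (P4.T (tri H) (x 0) (x 1) (x 2) (x 3) (x 4) (x 5) : ℤ) =
    (homs cP4 H : ℤ) := by
  unfold homs
  rw [card_filter]
  push_cast
  refine sum_congr rfl fun x _ => ?_
  unfold P4.T cP4
  simp only [tri_ite]
  rw [ite4]
  simp only [mem_insert, mem_singleton, forall_eq_or_imp, forall_eq, image_insert, image_singleton]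
  push_cast
  rfl

theorem m_P4 (h3 : ∀ e ∈ H, e.card = 3) (hK : K43Free H) : ∃ g : Fin n → Fin 3,
    n ^ 3 * (symmDiff H (turan g)).card + 3265920 * homs cP4 H ≤ 4480 * cols cP4 * n ^ 6 := by
  have hE := tri_sy H
  have hN := noK4 h3 hK
  refine fin6 h3 (P4.main hE hN) ?_ S_P4 ?_
  · have h := P4b.main hE hN
    linarith
  · rw [cols_P4]; norm_num

theorem S_PC : ∑ x : Fin 6 → Fin n, (PC.T (tri H) (x 0) (x 1) (x 2) (x 3) (x 4) (x 5) : ℤ) =
    (homs cPC H : ℤ) := by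
  unfold homs
  rw [card_filter]
  push_cast
  refine sum_congr rfl fun x _ => ?_
  unfold PC.T cPC
  simp only [tri_ite]
  rw [ite4]
  simp only [mem_insert, mem_singleton, forall_eq_or_imp, forall_eq, image_insert, image_singleton]
  push_cast
  rfl

theorem m_PC (h3 : ∀ e ∈ H, e.card = 3) (hK : K43Free H) : ∃ g : Fin n → Fin 3,
    n ^ 3 * (symmDiff H (turan g)).card + 3265920 * homs cPC H ≤ 4480 * cols cPC * n ^ 6 := by
  have hE := tri_sy H
  have hN := noK4 h3 hK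
  refine fin6 h3 (PC.main hE hN) ?_ S_PC ?_
  · have h := PCb.main hE hN
    linarith
  · rw [cols_PC]; norm_num

theorem S_FK : ∑ x : Fin 6 → Fin n, (FK.T (tri H) (x 0) (x 1) (x 2) (x 3) (x 4) (x 5) : ℤ) =
    (homs cFK H : ℤ) := by
  unfold homs
  rw [card_filter]
  push_cast
  refine sum_congr rfl fun x _ => ?_
  unfold FK.T cFK
  simp only [tri_ite]
  rw [ite4]
  simp only [mem_insert, mem_singleton, forall_eq_or_imp, forall_eq, image_insert, image_singleton]
  push_cast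
  rfl

theorem m_FK (h3 : ∀ e ∈ H, e.card = 3) (hK : K43Free H) : ∃ g : Fin n → Fin 3,
    n ^ 3 * (symmDiff H (turan g)).card + 3265920 * homs cFK H ≤ 4480 * cols cFK * n ^ 6 := by
  have hE := tri_sy H
  have hN := noK4 h3 hK
  refine fin6 h3 (FK.main hE hN) ?_ S_FK ?_
  · have h := FKb.main hE hN
    linarith
  · rw [cols_FK]; norm_num

theorem S_NT : ∑ x : Fin 6 → Fin n, (NT.T (tri H) (x 0) (x 1) (x 2) (x 3) (x 4) (x 5) : ℤ) =
    (homs cNT H : ℤ) := by
  unfold homs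
  rw [card_filter]
  push_cast
  refine sum_congr rfl fun x _ => ?_
  unfold NT.T cNT
  simp only [tri_ite]
  rw [ite4]
  simp only [mem_insert, mem_singleton, forall_eq_or_imp, forall_eq, image_insert, image_singleton]
  push_cast
  rfl

theorem m_NT (h3 : ∀ e ∈ H, e.card = 3) (hK : K43Free H) : ∃ g : Fin n → Fin 3,
    n ^ 3 * (symmDiff H (turan g)).card + 3265920 * homs cNT H ≤ 4480 * cols cNT * n ^ 6 := by
  have hE := tri_sy H
  have hN := noK4 h3 hK
  refine fin6 h3 (NT.main hE hN) ?_ S_NT ?_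
  · have h := NTb.main hE hN
    linarith
  · rw [cols_NT]; norm_num

theorem S_P3 : ∑ x : Fin 6 → Fin n, (P3.T (tri H) (x 0) (x 1) (x 2) (x 3) (x 4) (x 5) : ℤ) =
    (n : ℤ) * (homs cP3 H : ℤ) := by
  rw [← Equiv.sum_comp (Fin.insertNthEquiv (fun _ => Fin n) (3 : Fin 6)), Fintype.sum_prod_type]
  have e1 : ∀ v : Fin n, ∑ y : Fin 5 → Fin n, (P3.T (tri H)
      ((Fin.insertNthEquiv (fun _ => Fin n) (3 : Fin 6)) (v, y) 0)
      ((Fin.insertNthEquiv (fun _ => Fin n) (3 : Fin 6)) (v, y) 1)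
      ((Fin.insertNthEquiv (fun _ => Fin n) (3 : Fin 6)) (v, y) 2)
      ((Fin.insertNthEquiv (fun _ => Fin n) (3 : Fin 6)) (v, y) 3)
      ((Fin.insertNthEquiv (fun _ => Fin n) (3 : Fin 6)) (v, y) 4)
      ((Fin.insertNthEquiv (fun _ => Fin n) (3 : Fin 6)) (v, y) 5) : ℤ) = (homs cP3 H : ℤ) := by
    intro v
    unfold homs
    rw [card_filter]
    push_cast
    refine sum_congr rfl fun y _ => ?_
    have e2 : P3.T (tri H)
      ((Fin.insertNthEquiv (fun _ => Fin n) (3 : Fin 6)) (v, y) 0)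
      ((Fin.insertNthEquiv (fun _ => Fin n) (3 : Fin 6)) (v, y) 1)
      ((Fin.insertNthEquiv (fun _ => Fin n) (3 : Fin 6)) (v, y) 2)
      ((Fin.insertNthEquiv (fun _ => Fin n) (3 : Fin 6)) (v, y) 3)
      ((Fin.insertNthEquiv (fun _ => Fin n) (3 : Fin 6)) (v, y) 4)
      ((Fin.insertNthEquiv (fun _ => Fin n) (3 : Fin 6)) (v, y) 5) =
        tri H (y 0) (y 1) (y 2) * (tri H (y 0) (y 1) (y 3) * tri H (y 1) (y 2) (y 4)) := rfl
    rw [e2]
    unfold cP3
    simp only [tri_ite]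
    rw [ite3]
    simp only [mem_insert, mem_singleton, forall_eq_or_imp, forall_eq, image_insert, image_singleton]
    push_cast
    rfl
  rw [sum_congr rfl fun v _ => e1 v, sum_const, card_univ, Fintype.card_fin, nsmul_eq_mul]

theorem m_P3 (h3 : ∀ e ∈ H, e.card = 3) (hK : K43Free H) : ∃ g : Fin n → Fin 3,
    n ^ 2 * (symmDiff H (turan g)).card + 3265920 * homs cP3 H ≤ 13440 * cols cP3 * n ^ 5 := by
  rcases Nat.eq_zero_or_pos n with hn | hn
  · subst hn
    refine ⟨fun i => i.elim0, ?_⟩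
    have : homs cP3 H = 0 := by
      unfold homs
      rw [card_eq_zero, filter_eq_empty_iff]
      intro φ
      exact (φ 0).elim0
    rw [this]
    simp
  · have hE := tri_sy H
    have hN := noK4 h3 hK
    have h1 := P3.main hE hN
    have h2 := P3b.main hE hN
    rw [S_P3] at h1 h2
    obtain ⟨g, hg⟩ := fin6 (N := 1920) (c := 144) (h := n * homs cP3 H) h3 h1 (by linarith)
      (by push_cast; ring) (by norm_num)
    refine ⟨g, ?_⟩
    rw [cols_P3]
    have h5 : n * (n ^ 2 * (symmDiff H (turan g)).card + 3265920 * homs cP3 H) ≤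
        n * (13440 * 48 * n ^ 5) := by
      calc _ = n ^ 3 * (symmDiff H (turan g)).card + 3265920 * (n * homs cP3 H) := by ring
        _ ≤ _ := hg
        _ = _ := by ring
    exact Nat.le_of_mul_le_mul_left h5 hn

end Pool.Agent.N461.TT
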