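import Pool.Agent.N461.TT.P3Part

set_option autoImplicit false
set_option maxRecDepth 100000

namespace Pool.Agent.N461.TT.P3

theorem part00 : part 0 0 = true := by decide +kernel

end Pool.Agent.N461.TT.P3
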