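import Pool.Agent.N461.TT.Main
import Pool.Agent.N461.TT.Lim

/-! The final forms. -/

set_option autoImplicit false
set_option maxHeartbeats 4000000
open Finset Filter Topology

namespace Pool.Agent.N461.TT

theorem six_all {F : Finset (Finset (Fin 6))} (hT : TightTree F) (hc : F.card = 4) (hs : ¬ IsStar F)
    {n : ℕ} {H : Finset (Finset (Fin n))} (h3 : ∀ e ∈ H, e.card = 3) (hK : K43Free H) :
    ∃ g : Fin n → Fin 3,
      n ^ 3 * (symmDiff H (turan g)).card + 3265920 * homs F H ≤ 4480 * cols F * n ^ 6 := by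
  obtain ⟨σ, hσ, h | h | h | h⟩ := class6 hT hc hs
  · rw [h, homs_img _ hσ, cols_img _ hσ]; exact m_P4 h3 hK
  · rw [h, homs_img _ hσ, cols_img _ hσ]; exact m_PC h3 hK
  · rw [h, homs_img _ hσ, cols_img _ hσ]; exact m_FK h3 hK
  · rw [h, homs_img _ hσ, cols_img _ hσ]; exact m_NT h3 hK

theorem five_all {F : Finset (Finset (Fin 5))} (hT : TightTree F) (hc : F.card = 3)
    (hs : ¬ IsStar F) {n : ℕ} {H : Finset (Finset (Fin n))} (h3 : ∀ e ∈ H, e.card = 3)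
    (hK : K43Free H) : ∃ g : Fin n → Fin 3,
      n ^ 2 * (symmDiff H (turan g)).card + 3265920 * homs F H ≤ 13440 * cols F * n ^ 5 := by
  obtain ⟨σ, hσ, h⟩ := class5 hT hc hs
  rw [h, homs_img _ hσ, cols_img _ hσ]
  exact m_P3 h3 hK

theorem real6 {F : Finset (Finset (Fin 6))} {n : ℕ} {H : Finset (Finset (Fin n))} {d : ℕ}
    (h : n ^ 3 * d + 3265920 * homs F H ≤ 4480 * cols F * n ^ 6) :
    (homs F H : ℝ) + (n : ℝ) ^ 3 * (d : ℝ) / 4000000 ≤ (cols F : ℝ) / 3 ^ 6 * (n : ℝ) ^ 6 := by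
  have h' : (n : ℝ) ^ 3 * (d : ℝ) + 3265920 * (homs F H : ℝ) ≤ 4480 * (cols F : ℝ) * (n : ℝ) ^ 6 := by
    exact_mod_cast h
  have h0 : (0 : ℝ) ≤ (n : ℝ) ^ 3 * (d : ℝ) := by positivity
  have e : (cols F : ℝ) / 3 ^ 6 * (n : ℝ) ^ 6 = (4480 * (cols F : ℝ) * (n : ℝ) ^ 6) / 3265920 := by
    ring
  rw [e, le_div_iff₀ (by norm_num)]
  linarith

theorem real5 {F : Finset (Finset (Fin 5))} {n : ℕ} {H : Finset (Finset (Fin n))} {d : ℕ}
    (h : n ^ 2 * d + 3265920 * homs F H ≤ 13440 * cols F * n ^ 5) :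
    (homs F H : ℝ) + (n : ℝ) ^ 2 * (d : ℝ) / 4000000 ≤ (cols F : ℝ) / 3 ^ 5 * (n : ℝ) ^ 5 := by
  have h' : (n : ℝ) ^ 2 * (d : ℝ) + 3265920 * (homs F H : ℝ) ≤ 13440 * (cols F : ℝ) * (n : ℝ) ^ 5 := by
    exact_mod_cast h
  have h0 : (0 : ℝ) ≤ (n : ℝ) ^ 2 * (d : ℝ) := by positivity
  have e : (cols F : ℝ) / 3 ^ 5 * (n : ℝ) ^ 5 = (13440 * (cols F : ℝ) * (n : ℝ) ^ 5) / 3265920 := by
    ring
  rw [e, le_div_iff₀ (by norm_num)]
  linarith

theorem main_all (k : ℕ) (hk : k = 3 ∨ k = 4) (F : Finset (Finset (Fin (k + 2))))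
    (hT : TightTree F) (hc : F.card = k) (hs : ¬ IsStar F) (n : ℕ) (H : Finset (Finset (Fin n)))
    (h3 : ∀ e ∈ H, e.card = 3) (hK : K43Free H) : ∃ g : Fin n → Fin 3,
      (homs F H : ℝ) + (n : ℝ) ^ (k - 1) * ((symmDiff H (turan g)).card : ℝ) / 4000000 ≤
        (cols F : ℝ) / 3 ^ (k + 2) * (n : ℝ) ^ (k + 2) := by
  rcases hk with rfl | rfl
  · obtain ⟨g, hg⟩ := five_all hT hc hs h3 hK
    exact ⟨g, real5 hg⟩
  · obtain ⟨g, hg⟩ := six_all hT hc hs h3 hK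
    exact ⟨g, real6 hg⟩

theorem upper_all (k : ℕ) (hk : k = 3 ∨ k = 4) (F : Finset (Finset (Fin (k + 2))))
    (hT : TightTree F) (hc : F.card = k) (hs : ¬ IsStar F) (n : ℕ) (H : Finset (Finset (Fin n)))
    (h3 : ∀ e ∈ H, e.card = 3) (hK : K43Free H) :
      (homs F H : ℝ) ≤ (cols F : ℝ) / 3 ^ (k + 2) * (n : ℝ) ^ (k + 2) := by
  obtain ⟨g, hg⟩ := main_all k hk F hT hc hs n H h3 hK
  have h0 : (0 : ℝ) ≤ (n : ℝ) ^ (k - 1) * ((symmDiff H (turan g)).card : ℝ) / 4000000 := by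
    positivity
  linarith

theorem lim_all (k : ℕ) (hk : k = 3 ∨ k = 4) (F : Finset (Finset (Fin (k + 2))))
    (hT : TightTree F) (hc : F.card = k) (hs : ¬ IsStar F) :
    Tendsto (fun n : ℕ => (maxHoms F n : ℝ) / (n : ℝ) ^ (k + 2)) atTop
      (𝓝 ((cols F : ℝ) / 3 ^ (k + 2))) :=
  lim_max (tree_three hT) fun n H h3 hK => upper_all k hk F hT hc hs n H h3 hK

theorem cols_S4 : cols cS4 = 99 := by decide +kernel

theorem W_S4 : (∑ c ∈ (univ : Finset (Fin 6 → Fin 3)).filter (fun c => ∀ e ∈ cS4, Rule c e),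
    ∏ i, w6 (c i)) = 6651 := by decide +kernel

theorem star_all (F : Finset (Finset (Fin 6))) (hT : TightTree F) (hc : F.card = 4)
    (hs : IsStar F) : ∃ δ : ℝ, 0 < δ ∧ ∀ᶠ n : ℕ in atTop,
      ((cols F : ℝ) / 3 ^ 6 + δ) * (n : ℝ) ^ 6 ≤ (maxHoms F n : ℝ) := by
  obtain ⟨σ, hσ, h⟩ := class6s hT hc hs
  refine ⟨300 / 46656, by norm_num, ?_⟩
  have e1 : cols F = 99 := by rw [h, cols_img _ hσ, cols_S4]
  have h1 := lim_low 6651 6 6 6 (by norm_num)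
  have h2 : (99 : ℝ) / 3 ^ 6 + 300 / 46656 < ((6651 : ℕ) : ℝ) * (1 / ((6 : ℕ) : ℝ)) ^ 6 := by
    norm_num
  filter_upwards [h1.eventually (lt_mem_nhds h2), eventually_ge_atTop 12] with n hn hn12
  have h3 := homs_low (tree_three hT) (g6 n) w6 (n / 6) (g6_card n)
  have e2 : (∑ c ∈ (univ : Finset (Fin 6 → Fin 3)).filter (fun c => ∀ e ∈ F, Rule c e),
      ∏ i, w6 (c i)) = 6651 := by
    rw [← W_S4, h]
    have hb := Finite.injective_iff_bijective.mp hσ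
    obtain ⟨τ, hτ⟩ := hb.2.hasRightInverse
    refine sum_bij (fun φ _ => φ ∘ σ) ?_ ?_ ?_ ?_
    · intro φ hφ
      have h := (mem_filter.mp hφ).2
      refine mem_filter.mpr ⟨mem_univ _, fun e he => ?_⟩
      exact (rule_image φ hσ e).mp (h (e.image σ) (mem_image_of_mem _ he))
    · intro φ _ ψ _ h
      funext i
      obtain ⟨j, rfl⟩ := hb.2 i
      exact congrFun h j
    · intro ψ hψ
      have h := (mem_filter.mp hψ).2
      have e1 : (ψ ∘ τ) ∘ σ = ψ := by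
        funext i
        show ψ (τ (σ i)) = ψ i
        rw [hσ (hτ (σ i))]
      refine ⟨ψ ∘ τ, mem_filter.mpr ⟨mem_univ _, fun e he => ?_⟩, e1⟩
      obtain ⟨e', he', rfl⟩ := mem_image.mp he
      rw [rule_image _ hσ, e1]
      exact h e' he'
    · intro φ _
      exact (Equiv.prod_comp (Equiv.ofBijective σ hb) fun i => w6 (φ i)).symm
  rw [e2] at h3
  have h4 := low_eval (h := homs F (turan (g6 n))) (by norm_num) (by omega) h3
  have h5 := le_maxHoms (F := F) (turan_three (g6 n)) (turan_free (g6 n))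
  have h6 : (homs F (turan (g6 n)) : ℝ) ≤ (maxHoms F n : ℝ) := by exact_mod_cast h5
  have hn' : (0 : ℝ) < (n : ℝ) ^ 6 := by
    have : (0 : ℝ) < n := by exact_mod_cast (by omega : 0 < n)
    positivity
  have h7 := hn.le.trans h4
  rw [le_div_iff₀ hn'] at h7
  rw [e1]
  exact h7.trans h6

end Pool.Agent.N461.TT
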