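import Pool.Agent.N461.TT.Defs

/-! Tight trees with at most four edges. -/

set_option autoImplicit false
set_option maxRecDepth 100000
set_option maxHeartbeats 4000000
open Finset

namespace Pool.Agent.N461.TT

instance {m : ℕ} (F : Finset (Finset (Fin m))) : Decidable (IsStar F) := by
  unfold IsStar; infer_instance

def codes : ℕ → List (List (ℕ × ℕ × ℕ))
  | 0 => [[(0, 1, 2)]]
  | k + 1 => (codes k).flatMap fun L => L.flatMap fun t =>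
      [(t.1, t.2.1, k + 3) :: L, (t.1, t.2.2, k + 3) :: L, (t.2.1, t.2.2, k + 3) :: L]

def mk {m : ℕ} (x : ℕ → Fin m) (L : List (ℕ × ℕ × ℕ)) : Finset (Finset (Fin m)) :=
  (L.map fun t => ({x t.1, x t.2.1, x t.2.2} : Finset (Fin m))).toFinset

theorem mk_cons {m : ℕ} (x : ℕ → Fin m) (t : ℕ × ℕ × ℕ) (L : List (ℕ × ℕ × ℕ)) :
    mk x (t :: L) = insert {x t.1, x t.2.1, x t.2.2} (mk x L) := by
  unfold mk
  rw [List.map_cons, List.toFinset_cons]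

theorem mem_mk {m : ℕ} {x : ℕ → Fin m} {L : List (ℕ × ℕ × ℕ)} {e : Finset (Fin m)} :
    e ∈ mk x L ↔ ∃ t ∈ L, ({x t.1, x t.2.1, x t.2.2} : Finset (Fin m)) = e := by
  unfold mk
  rw [List.mem_toFinset, List.mem_map]

theorem mk_congr {m : ℕ} {x y : ℕ → Fin m} {L : List (ℕ × ℕ × ℕ)}
    (h : ∀ t ∈ L, x t.1 = y t.1 ∧ x t.2.1 = y t.2.1 ∧ x t.2.2 = y t.2.2) : mk x L = mk y L := by
  unfold mk
  congr 1
  refine List.map_congr_left fun t ht => ?_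
  obtain ⟨h1, h2, h3⟩ := h t ht
  rw [h1, h2, h3]

theorem code_of_tree {m : ℕ} {F : Finset (Finset (Fin m))} (h : TightTree F) :
    ∃ k, ∃ L ∈ codes k, ∃ x : ℕ → Fin m, (∀ i < k + 3, ∀ j < k + 3, x i = x j → i = j) ∧
      F = mk x L ∧ F.card = k + 1 ∧ (∀ i < k + 3, ∃ e ∈ F, x i ∈ e) ∧
      (∀ t ∈ L, t.1 < k + 3 ∧ t.2.1 < k + 3 ∧ t.2.2 < k + 3) := by
  induction h with
  | base a b c hab hac hbc =>
    have e0 : (fun i : ℕ => if i = 0 then a else if i = 1 then b else c) 0 = a := rfl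
    have e1 : (fun i : ℕ => if i = 0 then a else if i = 1 then b else c) 1 = b := rfl
    have e2 : (fun i : ℕ => if i = 0 then a else if i = 1 then b else c) 2 = c := rfl
    refine ⟨0, [(0, 1, 2)], by simp [codes],
      fun i => if i = 0 then a else if i = 1 then b else c, ?_, ?_, ?_, ?_, ?_⟩
    · intro i hi j hj hij
      interval_cases i <;> interval_cases j <;> simp_all
    · rw [mk_cons]
      unfold mk
      rw [List.map_nil, List.toFinset_nil]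
      rfl
    · rw [card_singleton]
    · intro i hi
      refine ⟨{a, b, c}, mem_singleton_self _, ?_⟩
      interval_cases i <;> simp
    · intro t ht
      rw [List.mem_singleton] at ht
      subst ht
      simp
  | step F a b v _ hab he hv ih =>
    obtain ⟨k, L, hL, x, hx, hF, hc, hs, hb⟩ := ih
    obtain ⟨e, heF, ha, hb'⟩ := he
    have he2 := heF
    rw [hF, mem_mk] at he2
    obtain ⟨t, ht, rfl⟩ := he2
    have hxv : ∀ i < k + 3, x i ≠ v := by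
      intro i hi h
      obtain ⟨e, he, h2⟩ := hs i hi
      exact hv e he (h ▸ h2)
    set y : ℕ → Fin m := fun i => if i = k + 3 then v else x i with hy
    have y1 : ∀ i < k + 3, y i = x i := by
      intro i hi
      rw [hy]
      exact if_neg (by omega)
    have y2 : y (k + 3) = v := by
      rw [hy]
      exact if_pos rfl
    have hmk : mk y L = mk x L := mk_congr fun t ht => by
      obtain ⟨h1, h2, h3⟩ := hb t ht
      exact ⟨y1 _ h1, y1 _ h2, y1 _ h3⟩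
    have key : ∃ p q : ℕ, p < k + 3 ∧ q < k + 3 ∧
        ((p, q, k + 3) :: L) ∈ [(t.1, t.2.1, k + 3) :: L, (t.1, t.2.2, k + 3) :: L,
          (t.2.1, t.2.2, k + 3) :: L] ∧ ({a, b, v} : Finset (Fin m)) = {x p, x q, v} := by
      obtain ⟨h1, h2, h3⟩ := hb t ht
      have sw : ∀ u w z : Fin m, ({u, w, z} : Finset (Fin m)) = {w, u, z} := fun u w z =>
        Finset.insert_comm _ _ _
      simp only [mem_insert, mem_singleton] at ha hb'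
      rcases ha with rfl | rfl | rfl <;> rcases hb' with rfl | rfl | rfl
      · exact absurd rfl hab
      · exact ⟨t.1, t.2.1, h1, h2, by simp, rfl⟩
      · exact ⟨t.1, t.2.2, h1, h3, by simp, rfl⟩
      · exact ⟨t.1, t.2.1, h1, h2, by simp, sw _ _ _⟩
      · exact absurd rfl hab
      · exact ⟨t.2.1, t.2.2, h2, h3, by simp, rfl⟩
      · exact ⟨t.1, t.2.2, h1, h3, by simp, sw _ _ _⟩
      · exact ⟨t.2.1, t.2.2, h2, h3, by simp, sw _ _ _⟩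
      · exact absurd rfl hab
    obtain ⟨p, q, hp, hq, hpq, hset⟩ := key
    refine ⟨k + 1, (p, q, k + 3) :: L, ?_, y, ?_, ?_, ?_, ?_, ?_⟩
    · show _ ∈ (codes k).flatMap fun L => L.flatMap fun t =>
        [(t.1, t.2.1, k + 3) :: L, (t.1, t.2.2, k + 3) :: L, (t.2.1, t.2.2, k + 3) :: L]
      rw [List.mem_flatMap]
      refine ⟨L, hL, ?_⟩
      rw [List.mem_flatMap]
      exact ⟨t, ht, hpq⟩
    · intro i hi j hj hij
      rcases Nat.lt_or_ge i (k + 3) with h1 | h1 <;> rcases Nat.lt_or_ge j (k + 3) with h2 | h2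
      · rw [y1 i h1, y1 j h2] at hij
        exact hx i h1 j h2 hij
      · have : j = k + 3 := by omega
        subst this
        rw [y1 i h1, y2] at hij
        exact absurd hij (hxv i h1)
      · have : i = k + 3 := by omega
        subst this
        rw [y1 j h2, y2] at hij
        exact absurd hij.symm (hxv j h2)
      · omega
    · rw [mk_cons, hmk, ← hF, y1 p hp, y1 q hq, y2, hset]
    · rw [card_insert_of_notMem, hc]
      intro hm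
      exact hv _ hm (by simp)
    · intro i hi
      rcases Nat.lt_or_ge i (k + 3) with h1 | h1
      · obtain ⟨e, he, h2⟩ := hs i h1
        exact ⟨e, mem_insert_of_mem he, by rw [y1 i h1]; exact h2⟩
      · have : i = k + 3 := by omega
        subst this
        exact ⟨_, mem_insert_self _ _, by rw [y2]; simp⟩
    · intro t' ht'
      rcases List.mem_cons.mp ht' with rfl | ht'
      · show p < k + 1 + 3 ∧ q < k + 1 + 3 ∧ k + 3 < k + 1 + 3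
        omega
      · obtain ⟨h1, h2, h3⟩ := hb t' ht'
        exact ⟨by omega, by omega, by omega⟩

/-- the tight path with three edges -/
def cP3 : Finset (Finset (Fin 5)) := {{0, 1, 2}, {0, 1, 3}, {1, 2, 4}}
/-- the tight path with four edges -/
def cP4 : Finset (Finset (Fin 6)) := {{0, 1, 2}, {1, 2, 3}, {0, 1, 4}, {2, 3, 5}}
/-- the cone over the path with four edges -/
def cPC : Finset (Finset (Fin 6)) := {{0, 1, 2}, {0, 2, 3}, {0, 1, 4}, {0, 3, 5}}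
/-- the cone over the tree with degrees 3, 2, 1, 1, 1 -/
def cFK : Finset (Finset (Fin 6)) := {{0, 1, 2}, {0, 2, 3}, {0, 1, 4}, {0, 1, 5}}
/-- a triple with three further triples at its three pairs -/
def cNT : Finset (Finset (Fin 6)) := {{0, 1, 2}, {0, 2, 3}, {0, 1, 4}, {1, 2, 5}}
/-- the star with four edges -/
def cS4 : Finset (Finset (Fin 6)) := {{0, 1, 2}, {0, 1, 3}, {0, 1, 4}, {0, 1, 5}}

def T2 : List (ℕ × List ℕ) := [(9, [0, 1, 2, 3, 4]), (0, [1, 0, 3, 2, 4]), (0, [0, 1, 3, 2, 4]), (9, [0, 1, 2, 3, 4]), (0, [1, 0, 2, 3, 4]), (0, [0, 1, 2, 3, 4]), (9, [0, 1, 2, 3, 4]), (0, [2, 0, 3, 1, 4]), (0, [0, 2, 3, 1, 4]), (0, [1, 0, 2, 4, 3]), (9, [0, 1, 2, 3, 4]), (0, [0, 2, 1, 3, 4]), (9, [0, 1, 2, 3, 4]), (0, [2, 1, 3, 0, 4]), (0, [1, 2, 3, 0, 4]), (0, [0, 1, 2, 4, 3]), (0, [0, 2, 1, 4, 3]), (9, [0, 1, 2, 3, 4])]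

def T3 : List (ℕ × List ℕ) := [(4, [0, 1, 2, 3, 4, 5]), (2, [0, 1, 4, 5, 2, 3]), (2, [1, 0, 4, 5, 2, 3]), (4, [0, 1, 2, 3, 4, 5]), (2, [0, 1, 3, 5, 2, 4]), (2, [1, 0, 3, 5, 2, 4]), (4, [0, 1, 2, 3, 4, 5]), (2, [0, 1, 2, 5, 3, 4]), (2, [1, 0, 2, 5, 3, 4]), (2, [0, 3, 1, 2, 4, 5]), (1, [0, 1, 3, 4, 2, 5]), (0, [1, 0, 3, 4, 2, 5]), (2, [0, 1, 3, 4, 2, 5]), (2, [0, 3, 1, 2, 4, 5]), (3, [0, 1, 3, 4, 2, 5]), (2, [0, 1, 3, 4, 2, 5]), (1, [0, 2, 1, 3, 5, 4]), (0, [2, 1, 0, 3, 5, 4]), (2, [1, 3, 0, 2, 4, 5]), (1, [1, 0, 3, 4, 2, 5]), (0, [0, 1, 3, 4, 2, 5]), (2, [1, 0, 3, 4, 2, 5]), (3, [0, 1, 3, 5, 2, 4]), (2, [1, 3, 0, 2, 4, 5]), (2, [1, 0, 3, 4, 2, 5]), (0, [2, 0, 1, 3, 5, 4]), (1, [1, 2, 0, 3, 5, 4]), (4, [0, 1, 2, 3, 4, 5]), (2, [0, 1, 4, 5, 2, 3]), (2, [1, 0, 4, 5, 2, 3]), (4, [0, 1, 2, 3, 4, 5]), (2, [0, 1, 3, 5, 2, 4]), (2, [1, 0, 3, 5, 2, 4]), (4, [0, 1, 2, 3, 4,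 5]), (2, [0, 1, 2, 5, 3, 4]), (2, [1, 0, 2, 5, 3, 4]), (2, [0, 2, 1, 3, 4, 5]), (1, [0, 1, 2, 4, 3, 5]), (0, [1, 0, 2, 4, 3, 5]), (2, [0, 1, 2, 4, 3, 5]), (1, [0, 2, 1, 3, 4, 5]), (0, [2, 0, 1, 3, 4, 5]), (2, [0, 1, 2, 4, 3, 5]), (2, [0, 2, 1, 3, 4, 5]), (3, [0, 1, 2, 4, 3, 5]), (2, [1, 2, 0, 3, 4, 5]), (1, [1, 0, 2, 4, 3, 5]), (0, [0, 1, 2, 4, 3, 5]), (2, [1, 0, 2, 4, 3, 5]), (0, [2, 1, 0, 3, 4, 5]), (1, [1, 2, 0, 3, 4, 5]), (2, [1, 0, 2, 4, 3, 5]), (3, [0, 1, 2, 5, 3, 4]), (2, [1, 2, 0, 3, 4, 5]), (4, [0, 2, 1, 3, 4, 5]), (2, [0, 2, 4, 5, 1, 3]), (2, [2, 0, 4, 5, 1, 3]), (4, [0, 2, 1, 3, 4, 5]), (2, [0, 2, 3, 5, 1, 4]), (2, [2, 0, 3, 5, 1, 4]), (2, [0, 2, 1, 5, 3, 4]), (4, [0, 2, 1, 3, 4, 5]), (2, [2, 0, 1, 5, 3, 4]), (2, [0, 3, 2, 1, 4, 5]), (1, [0, 2, 3, 4, 1, 5]), (0, [2, 0, 3, 4, 1, 5]), (2, [0, 2, 3, 4, 1, 5]), (2, [0, 3, 2, 1, 4, 5]), (3, [0, 2, 3, 4, 1, 5]),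 (1, [0, 1, 2, 3, 5, 4]), (2, [0, 2, 3, 4, 1, 5]), (0, [1, 2, 0, 3, 5, 4]), (2, [2, 3, 0, 1, 4, 5]), (1, [2, 0, 3, 4, 1, 5]), (0, [0, 2, 3, 4, 1, 5]), (2, [2, 0, 3, 4, 1, 5]), (3, [0, 2, 3, 5, 1, 4]), (2, [2, 3, 0, 1, 4, 5]), (0, [1, 0, 2, 3, 5, 4]), (2, [2, 0, 3, 4, 1, 5]), (1, [2, 1, 0, 3, 5, 4]), (2, [0, 1, 2, 3, 4, 5]), (1, [0, 2, 1, 4, 3, 5]), (0, [2, 0, 1, 4, 3, 5]), (2, [0, 2, 1, 4, 3, 5]), (1, [0, 1, 2, 3, 4, 5]), (0, [1, 0, 2, 3, 4, 5]), (2, [0, 1, 2, 3, 4, 5]), (2, [0, 2, 1, 4, 3, 5]), (3, [0, 1, 2, 3, 4, 5]), (4, [0, 2, 1, 3, 4, 5]), (2, [0, 2, 4, 5, 1, 3]), (2, [2, 0, 4, 5, 1, 3]), (4, [0, 2, 1, 3, 4, 5]), (2, [0, 2, 3, 5, 1, 4]), (2, [2, 0, 3, 5, 1, 4]), (2, [0, 2, 1, 5, 3, 4]), (4, [0, 2, 1, 3, 4, 5]), (2, [2, 0, 1, 5, 3, 4]), (2, [2, 1, 0, 3, 4, 5]), (0, [0, 2, 1, 4, 3, 5]), (1, [2, 0, 1, 4, 3, 5]), (2, [2, 0, 1, 4, 3, 5]), (0, [1, 2, 0, 3, 4, 5]), (1,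 [2, 1, 0, 3, 4, 5]), (3, [0, 1, 2, 3, 5, 4]), (2, [2, 0, 1, 4, 3, 5]), (2, [2, 1, 0, 3, 4, 5]), (4, [1, 2, 0, 3, 4, 5]), (2, [1, 2, 4, 5, 0, 3]), (2, [2, 1, 4, 5, 0, 3]), (4, [1, 2, 0, 3, 4, 5]), (2, [1, 2, 3, 5, 0, 4]), (2, [2, 1, 3, 5, 0, 4]), (2, [1, 2, 0, 5, 3, 4]), (2, [2, 1, 0, 5, 3, 4]), (4, [1, 2, 0, 3, 4, 5]), (2, [1, 3, 2, 0, 4, 5]), (1, [1, 2, 3, 4, 0, 5]), (0, [2, 1, 3, 4, 0, 5]), (2, [1, 2, 3, 4, 0, 5]), (2, [1, 3, 2, 0, 4, 5]), (3, [1, 2, 3, 4, 0, 5]), (1, [1, 0, 2, 3, 5, 4]), (0, [0, 2, 1, 3, 5, 4]), (2, [1, 2, 3, 4, 0, 5]), (2, [2, 3, 1, 0, 4, 5]), (1, [2, 1, 3, 4, 0, 5]), (0, [1, 2, 3, 4, 0, 5]), (2, [2, 1, 3, 4, 0, 5]), (3, [1, 2, 3, 5, 0, 4]), (2, [2, 3, 1, 0, 4, 5]), (0, [0, 1, 2, 3, 5, 4]), (1, [2, 0, 1, 3, 5, 4]), (2, [2, 1, 3, 4, 0, 5]), (2, [1, 0, 2, 3, 4, 5]), (0, [2, 1, 0, 4, 3, 5]), (1, [1, 2, 0, 4, 3, 5]), (2, [1, 2, 0, 4, 3, 5]), (1, [1,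 0, 2, 3, 4, 5]), (0, [0, 1, 2, 3, 4, 5]), (2, [1, 0, 2, 3, 4, 5]), (3, [0, 1, 2, 5, 4, 3]), (2, [1, 2, 0, 4, 3, 5]), (2, [2, 0, 1, 3, 4, 5]), (0, [1, 2, 0, 4, 3, 5]), (1, [2, 1, 0, 4, 3, 5]), (2, [2, 1, 0, 4, 3, 5]), (0, [0, 2, 1, 3, 4, 5]), (1, [2, 0, 1, 3, 4, 5]), (3, [0, 1, 2, 4, 5, 3]), (2, [2, 0, 1, 3, 4, 5]), (2, [2, 1, 0, 4, 3, 5]), (4, [1, 2, 0, 3, 4, 5]), (2, [1, 2, 4, 5, 0, 3]), (2, [2, 1, 4, 5, 0, 3]), (4, [1, 2, 0, 3, 4, 5]), (2, [1, 2, 3, 5, 0, 4]), (2, [2, 1, 3, 5, 0, 4]), (2, [1, 2, 0, 5, 3, 4]), (2, [2, 1, 0, 5, 3, 4]), (4, [1, 2, 0, 3, 4, 5])]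


def o5 (i : ℕ) : Fin 5 := Fin.ofNat 5 i
def o6 (i : ℕ) : Fin 6 := Fin.ofNat 6 i

def img {m : ℕ} (F : Finset (Finset (Fin m))) (σ : Fin m → Fin m) : Finset (Finset (Fin m)) :=
  F.image fun e => e.image σ

def inj {m : ℕ} (σ : Fin m → Fin m) : Bool := decide (∀ i j, σ i = σ j → i = j)

def c5 (L : List (ℕ × ℕ × ℕ)) (p : ℕ × List ℕ) : Bool :=
  decide (IsStar (mk o5 L)) ||
    (inj (fun i : Fin 5 => o5 (p.2.getD i 0)) &&
      decide (mk o5 L = img cP3 (fun i : Fin 5 => o5 (p.2.getD i 0))))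

def c6 (L : List (ℕ × ℕ × ℕ)) (p : ℕ × List ℕ) : Bool :=
    (inj (fun i : Fin 6 => o6 (p.2.getD i 0)) &&
      decide (mk o6 L = img (if p.1 = 0 then cP4 else if p.1 = 1 then cPC else if p.1 = 2 then cFK
        else if p.1 = 3 then cNT else cS4) (fun i : Fin 6 => o6 (p.2.getD i 0))))

def z5 : Bool := ((codes 2).zip T2).all fun q => c5 q.1 q.2
def z6 : Bool := ((codes 3).zip T3).all fun q => c6 q.1 q.2

theorem z5_t : z5 = true := by decide +kernel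
theorem z6_t : z6 = true := by decide +kernel
theorem l5 : (codes 2).length = T2.length := by decide +kernel
theorem l6 : (codes 3).length = T3.length := by decide +kernel

theorem zip_all {α β : Type} {A : List α} {B : List β} {P : α → β → Bool}
    (h : (A.zip B).all (fun q => P q.1 q.2) = true) (hl : A.length = B.length) {a : α}
    (ha : a ∈ A) : ∃ b, P a b = true := by
  obtain ⟨i, hi, rfl⟩ := List.getElem_of_mem ha
  refine ⟨B[i]'(by omega), ?_⟩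
  rw [List.all_eq_true] at h
  refine h (A[i], B[i]'(by omega)) ?_
  rw [List.mem_iff_getElem]
  exact ⟨i, by rw [List.length_zip]; omega, by rw [List.getElem_zip]⟩

theorem code5 {L : List (ℕ × ℕ × ℕ)} (hL : L ∈ codes 2) : IsStar (mk o5 L) ∨
    ∃ σ : Fin 5 → Fin 5, Function.Injective σ ∧ mk o5 L = img cP3 σ := by
  obtain ⟨p, hp⟩ := zip_all (P := c5) z5_t l5 hL
  unfold c5 at hp
  rw [Bool.or_eq_true, Bool.and_eq_true, decide_eq_true_eq, decide_eq_true_eq] at hp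
  rcases hp with h | ⟨h1, h2⟩
  · exact Or.inl h
  · refine Or.inr ⟨_, ?_, h2⟩
    unfold inj at h1
    rw [decide_eq_true_eq] at h1
    exact fun i j => h1 i j

theorem code6 {L : List (ℕ × ℕ × ℕ)} (hL : L ∈ codes 3) :
    ∃ σ : Fin 6 → Fin 6, Function.Injective σ ∧ (mk o6 L = img cP4 σ ∨ mk o6 L = img cPC σ ∨
      mk o6 L = img cFK σ ∨ mk o6 L = img cNT σ ∨ mk o6 L = img cS4 σ) := by
  obtain ⟨p, hp⟩ := zip_all (P := c6) z6_t l6 hL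
  unfold c6 at hp
  rw [Bool.and_eq_true, decide_eq_true_eq] at hp
  obtain ⟨h1, h2⟩ := hp
  refine ⟨fun i : Fin 6 => o6 (p.2.getD i 0), ?_, ?_⟩
  · unfold inj at h1
    rw [decide_eq_true_eq] at h1
    exact fun i j => h1 i j
  · split_ifs at h2
    · exact Or.inl h2
    · exact Or.inr (Or.inl h2)
    · exact Or.inr (Or.inr (Or.inl h2))
    · exact Or.inr (Or.inr (Or.inr (Or.inl h2)))
    · exact Or.inr (Or.inr (Or.inr (Or.inr h2)))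

theorem img_img {m : ℕ} (F : Finset (Finset (Fin m))) (σ τ : Fin m → Fin m) :
    img (img F σ) τ = img F (τ ∘ σ) := by
  unfold img
  rw [image_image]
  refine image_congr fun e _ => ?_
  show (e.image σ).image τ = e.image (τ ∘ σ)
  rw [image_image]

theorem mk_img {m : ℕ} (x : ℕ → Fin m) (o : ℕ → Fin m) (y : Fin m → Fin m)
    {L : List (ℕ × ℕ × ℕ)}
    (h : ∀ t ∈ L, y (o t.1) = x t.1 ∧ y (o t.2.1) = x t.2.1 ∧ y (o t.2.2) = x t.2.2) :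
    mk x L = img (mk o L) y := by
  ext e
  unfold img
  rw [mem_mk, mem_image]
  constructor
  · rintro ⟨t, ht, rfl⟩
    refine ⟨_, mem_mk.mpr ⟨t, ht, rfl⟩, ?_⟩
    obtain ⟨h1, h2, h3⟩ := h t ht
    rw [image_insert, image_insert, image_singleton, h1, h2, h3]
  · rintro ⟨e', he', rfl⟩
    obtain ⟨t, ht, rfl⟩ := mem_mk.mp he'
    refine ⟨t, ht, ?_⟩
    obtain ⟨h1, h2, h3⟩ := h t ht
    rw [image_insert, image_insert, image_singleton, h1, h2, h3]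

theorem star_img {m : ℕ} {F : Finset (Finset (Fin m))} {y : Fin m → Fin m}
    (hy : Function.Injective y) (h : IsStar F) : IsStar (img F y) := by
  obtain ⟨a, b, hab, h⟩ := h
  refine ⟨y a, y b, fun e => hab (hy e), fun e he => ?_⟩
  obtain ⟨e', he', rfl⟩ := mem_image.mp he
  exact ⟨mem_image_of_mem _ (h e' he').1, mem_image_of_mem _ (h e' he').2⟩

theorem o5_val {i : ℕ} (h : i < 5) : (o5 i : ℕ) = i := Nat.mod_eq_of_lt h
theorem o6_val {i : ℕ} (h : i < 6) : (o6 i : ℕ) = i := Nat.mod_eq_of_lt h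

/-- classification of the tight trees with three edges -/
theorem class5 {F : Finset (Finset (Fin 5))} (h : TightTree F) (hc : F.card = 3) (hs : ¬ IsStar F) :
    ∃ σ : Fin 5 → Fin 5, Function.Injective σ ∧ F = img cP3 σ := by
  obtain ⟨k, L, hL, x, hx, hF, hk, -, hb⟩ := code_of_tree h
  obtain rfl : k = 2 := by omega
  have hy : Function.Injective (fun i : Fin 5 => x i) := fun i j hij =>
    Fin.ext (hx i i.2 j j.2 hij)
  have hm : mk x L = img (mk o5 L) (fun i : Fin 5 => x i) := mk_img x o5 _ fun t ht => by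
    obtain ⟨h1, h2, h3⟩ := hb t ht
    exact ⟨by rw [o5_val h1], by rw [o5_val h2], by rw [o5_val h3]⟩
  rcases code5 hL with h1 | ⟨σ, hσ, h1⟩
  · exact absurd (hF ▸ hm ▸ star_img hy h1) hs
  · exact ⟨_, hy.comp hσ, by rw [hF, hm, h1, img_img]⟩

/-- the tight trees with four edges -/
theorem all6 {F : Finset (Finset (Fin 6))} (h : TightTree F) (hc : F.card = 4) :
    ∃ σ : Fin 6 → Fin 6, Function.Injective σ ∧ (F = img cP4 σ ∨ F = img cPC σ ∨ F = img cFK σ ∨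
      F = img cNT σ ∨ F = img cS4 σ) := by
  obtain ⟨k, L, hL, x, hx, hF, hk, -, hb⟩ := code_of_tree h
  obtain rfl : k = 3 := by omega
  have hy : Function.Injective (fun i : Fin 6 => x i) := fun i j hij =>
    Fin.ext (hx i i.2 j j.2 hij)
  have hm : mk x L = img (mk o6 L) (fun i : Fin 6 => x i) := mk_img x o6 _ fun t ht => by
    obtain ⟨h1, h2, h3⟩ := hb t ht
    exact ⟨by rw [o6_val h1], by rw [o6_val h2], by rw [o6_val h3]⟩
  obtain ⟨σ, hσ, h1⟩ := code6 hL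
  refine ⟨_, hy.comp hσ, ?_⟩
  rw [hF, hm, ← img_img, ← img_img, ← img_img, ← img_img, ← img_img]
  rcases h1 with h1 | h1 | h1 | h1 | h1 <;> rw [h1]
  · exact Or.inl rfl
  · exact Or.inr (Or.inl rfl)
  · exact Or.inr (Or.inr (Or.inl rfl))
  · exact Or.inr (Or.inr (Or.inr (Or.inl rfl)))
  · exact Or.inr (Or.inr (Or.inr (Or.inr rfl)))

theorem star_S4 : IsStar cS4 := by decide +kernel
theorem star_P4 : ¬ IsStar cP4 := by decide +kernel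
theorem star_PC : ¬ IsStar cPC := by decide +kernel
theorem star_FK : ¬ IsStar cFK := by decide +kernel
theorem star_NT : ¬ IsStar cNT := by decide +kernel

theorem star_of_img {m : ℕ} {F : Finset (Finset (Fin m))} {y : Fin m → Fin m}
    (hy : Function.Injective y) (h : IsStar (img F y)) : IsStar F := by
  obtain ⟨z, hz⟩ := (Finite.injective_iff_bijective.mp hy).2.hasRightInverse
  obtain ⟨a, b, hab, h⟩ := h
  refine ⟨z a, z b, fun e => hab ?_, fun e he => ?_⟩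
  · rw [← hz a, ← hz b, e]
  · obtain ⟨h1, h2⟩ := h (e.image y) (mem_image_of_mem _ he)
    obtain ⟨u, hu, h1⟩ := mem_image.mp h1
    obtain ⟨w, hw, h2⟩ := mem_image.mp h2
    have e1 : z a = u := hy (by rw [hz a, h1])
    have e2 : z b = w := hy (by rw [hz b, h2])
    exact ⟨e1 ▸ hu, e2 ▸ hw⟩

/-- classification of the tight trees with four edges which are not stars -/
theorem class6 {F : Finset (Finset (Fin 6))} (h : TightTree F) (hc : F.card = 4) (hs : ¬ IsStar F) :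
    ∃ σ : Fin 6 → Fin 6, Function.Injective σ ∧ (F = img cP4 σ ∨ F = img cPC σ ∨ F = img cFK σ ∨
      F = img cNT σ) := by
  obtain ⟨σ, hσ, h⟩ := all6 h hc
  refine ⟨σ, hσ, ?_⟩
  rcases h with h | h | h | h | h
  · exact Or.inl h
  · exact Or.inr (Or.inl h)
  · exact Or.inr (Or.inr (Or.inl h))
  · exact Or.inr (Or.inr (Or.inr h))
  · exact absurd (h ▸ star_img hσ star_S4) hs

/-- stars with four edges -/
theorem class6s {F : Finset (Finset (Fin 6))} (h : TightTree F) (hc : F.card = 4) (hs : IsStar F) :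
    ∃ σ : Fin 6 → Fin 6, Function.Injective σ ∧ F = img cS4 σ := by
  obtain ⟨σ, hσ, h⟩ := all6 h hc
  refine ⟨σ, hσ, ?_⟩
  rcases h with h | h | h | h | h
  · exact absurd (star_of_img hσ (h ▸ hs)) star_P4
  · exact absurd (star_of_img hσ (h ▸ hs)) star_PC
  · exact absurd (star_of_img hσ (h ▸ hs)) star_FK
  · exact absurd (star_of_img hσ (h ▸ hs)) star_NT
  · exact h

end Pool.Agent.N461.TT
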